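import Pool.Agent.Helper14.LongCyc.CaseMain

set_option linter.all false

namespace Pool.Agent.Helper14.LongCyc

universe u

variable {V : Type u} {G : SimpleGraph V}

/-- periodic parametrisation of a cyclic list -/
def cf (c : List V) (hc : 0 < c.length) (i : ℕ) : V := c.get ⟨i % c.length, Nat.mod_lt _ hc⟩

theorem cf_mem {c : List V} (hc : 0 < c.length) (i : ℕ) : cf c hc i ∈ c := List.get_mem _ _

theorem exists_cf {c : List V} (hc : 0 < c.length) {x : V} (hx : x ∈ c) :
    ∃ i < c.length, cf c hc i = x := by
  obtain ⟨i, hi, h⟩ := List.getElem_of_mem hx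
  refine ⟨i, hi, ?_⟩
  simp only [cf, List.get_eq_getElem, Nat.mod_eq_of_lt hi, h]

theorem cf_inj {c : List V} (hc : 0 < c.length) (hn : c.Nodup) {i j : ℕ}
    (h : cf c hc i = cf c hc j) : i % c.length = j % c.length := by
  simp only [cf, List.get_eq_getElem] at h
  exact (List.Nodup.getElem_inj_iff hn).1 h

theorem cf_congr {c : List V} (hc : 0 < c.length) {i j : ℕ} (h : i % c.length = j % c.length) :
    cf c hc i = cf c hc j := by
  simp only [cf, List.get_eq_getElem, h]

theorem cf_adj {c : List V} (hc : Cyc G c) (hp : 0 < c.length) (i : ℕ) :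
    G.Adj (cf c hp i) (cf c hp (i + 1)) := by
  obtain ⟨h3, a, b, hab, hba⟩ := hc
  by_cases h : i % c.length + 1 < c.length
  · have e : (i + 1) % c.length = i % c.length + 1 := by
      rw [Nat.add_mod, Nat.mod_eq_of_lt (by omega : 1 < c.length), Nat.mod_eq_of_lt h]
    have := List.isChain_iff_getElem.1 hab.2.1 (i % c.length) h
    simp only [cf, List.get_eq_getElem, e]
    exact this
  · have hm := Nat.mod_lt i hp
    have e0 : i % c.length = c.length - 1 := by omega
    have e : (i + 1) % c.length = 0 := by
      rw [Nat.add_mod, Nat.mod_eq_of_lt (by omega : 1 < c.length), e0,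
        Nat.sub_add_cancel (by omega), Nat.mod_self]
    have e1 : cf c hp i = b := by
      have := hab.2.2.2
      rw [List.getLast?_eq_getElem?, List.getElem?_eq_getElem (by omega)] at this
      simp only [Option.some.injEq] at this
      simp only [cf, List.get_eq_getElem, e0]
      exact this
    have e2 : cf c hp (i + 1) = a := by
      have := hab.2.2.1
      rw [List.head?_eq_getElem?, List.getElem?_eq_getElem (by omega)] at this
      simp only [Option.some.injEq] at this
      simp only [cf, List.get_eq_getElem, e]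
      exact this
    rw [e1, e2]; exact hba

theorem arc_pth {c : List V} (hc : Cyc G c) (hp : 0 < c.length) : ∀ (s i : ℕ), s < c.length →
    Pth G (cf c hp i) (cf c hp (i + s)) (seg (cf c hp) i s) := by
  intro s
  induction s with
  | zero => intro i _; simpa [seg] using Pth.singleton (cf c hp i)
  | succ s ih =>
    intro i hs
    have h1 := ih (i + 1) (by omega)
    have e : seg (cf c hp) i (s + 1) = cf c hp i :: seg (cf c hp) (i + 1) s := by
      simp only [seg, List.range'_succ, List.map_cons]
    rw [e, show i + (s + 1) = i + 1 + s by ring]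
    refine h1.cons (cf_adj hc hp i) ?_
    rw [mem_seg]
    rintro ⟨j, h2, h3, h4⟩
    have h5 := cf_inj hp hc.2.choose_spec.choose_spec.1.1 h4
    have h6 : c.length ∣ j - i := (Nat.modEq_iff_dvd' (by omega)).1 h5
    have := Nat.le_of_dvd (by omega) h6
    omega

/-- a shortest long cycle in the region `W` -/
structure Shortest (G : SimpleGraph V) (r : ℕ) (W : Finset V) (c : List V) : Prop where
  cyc : Cyc G c
  sub : ∀ x ∈ c, x ∈ W
  big : 9 * r < c.length
  min : ∀ l, Cyc G l → (∀ x ∈ l, x ∈ W) → r ≤ l.length → c.length ≤ l.length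

theorem Shortest.bridge1 {r : ℕ} (hr : 3 ≤ r) {W : Finset V} {c : List V}
    (h : Shortest G r W c) (hp : 0 < c.length) {e f : V} {p : List V} (hpp : Pth G e f p)
    (hpW : ∀ x ∈ p, x ∈ W ∧ x ∉ c) {i s : ℕ} (hs : s < c.length) (hf : G.Adj f (cf c hp i))
    (he : G.Adj e (cf c hp (i + s))) : p.length + s + 1 < r ∨ c.length ≤ p.length + s + 1 := by
  by_contra hcon
  rw [not_or] at hcon
  have h1 := hpp.append (arc_pth h.cyc hp s i hs) hf (by
    intro x hx hx'
    rw [mem_seg] at hx'
    obtain ⟨j, _, _, rfl⟩ := hx'
    exact (hpW _ hx).2 (cf_mem hp j))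
  have hlen : (p ++ seg (cf c hp) i s).length = p.length + s + 1 := by
    rw [List.length_append, seg_length]; omega
  have := h.min _ ⟨by rw [hlen]; omega, _, _, h1, he.symm⟩ (by
    intro x hx
    rw [List.mem_append, mem_seg] at hx
    rcases hx with hx | ⟨j, _, _, rfl⟩
    · exact (hpW x hx).1
    · exact h.sub _ (cf_mem hp j)) (by rw [hlen]; omega)
  rw [hlen] at this
  omega

theorem Shortest.bridge {r : ℕ} (hr : 3 ≤ r) {W : Finset V} {c : List V}
    (h : Shortest G r W c) (hp : 0 < c.length) {e f : V} {p : List V} (hpp : Pth G e f p)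
    (hpW : ∀ x ∈ p, x ∈ W ∧ x ∉ c) {i j : ℕ} (hij : i < j) (hj : j < c.length)
    (hf : G.Adj f (cf c hp i)) (he : G.Adj e (cf c hp j)) :
    (p.length + (j - i) + 1 < r ∨ c.length ≤ p.length + (j - i) + 1) ∧
      (p.length + (c.length - (j - i)) + 1 < r ∨
        c.length ≤ p.length + (c.length - (j - i)) + 1) := by
  constructor
  · refine h.bridge1 hr hp hpp hpW (by omega) hf ?_
    rwa [show i + (j - i) = j by omega]
  · have := h.bridge1 hr hp hpp.reverse (fun x hx => hpW x (List.mem_reverse.1 hx))
      (i := j) (s := c.length - (j - i)) (by omega) he (by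
        have e1 : cf c hp (j + (c.length - (j - i))) = cf c hp i := by
          apply cf_congr
          rw [show j + (c.length - (j - i)) = i + c.length by omega, Nat.add_mod_right]
        rw [e1]; exact hf)
    simpa using this

/-- long paths outside a shortest long cycle cannot be attached at both ends -/
theorem Shortest.no_attach {r : ℕ} (hr : 3 ≤ r) {W : Finset V} {c : List V}
    (h : Shortest G r W c) {e f : V} {p : List V} (hpp : Pth G e f p)
    (hpW : ∀ x ∈ p, x ∈ W ∧ x ∉ c) (h1 : r - 1 ≤ p.length) (h2 : p.length ≤ 4 * r) {x y : V}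
    (hx : x ∈ c) (hy : y ∈ c) (hex : G.Adj e x) (hfy : G.Adj f y) : False := by
  have hp : 0 < c.length := List.length_pos_of_mem hx
  have hbig := h.big
  obtain ⟨i, hi, rfl⟩ := exists_cf hp hx
  obtain ⟨j, hj, rfl⟩ := exists_cf hp hy
  rcases Nat.lt_trichotomy i j with hlt | rfl | hgt
  · have := h.bridge hr hp hpp.reverse (fun x hx => hpW x (List.mem_reverse.1 hx)) hlt hj hex hfy
    simp only [List.length_reverse] at this
    omega
  · have := h.bridge1 hr hp hpp hpW (i := i) (s := 0) hp hfy (by simpa using hex)
    omega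
  · have := h.bridge hr hp hpp hpW hgt hi hfy hex
    omega

open Classical in
/-- the cost lemma -/
theorem Shortest.cost [DecidableEq V] {r : ℕ} (hr : 3 ≤ r) {W : Finset V} {c : List V}
    (h : Shortest G r W c) {v : V} (hv : v ∈ W) (hvc : v ∉ c) :
    dg G c.toFinset v ≤ 3 ∧ 3 * dg G c.toFinset v ≤ 2 * r := by
  have hbig := h.big
  have hp : 0 < c.length := by omega
  set L := c.length with hL
  set I := (Finset.range L).filter fun i => G.Adj v (cf c hp i) with hI
  have hdI : dg G c.toFinset v ≤ I.card := by
    have : (c.toFinset.filter fun u => G.Adj v u) ⊆ I.image (cf c hp) := by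
      intro u hu
      rw [Finset.mem_filter, List.mem_toFinset] at hu
      obtain ⟨i, hi, rfl⟩ := exists_cf hp hu.1
      rw [Finset.mem_image]
      exact ⟨i, by rw [hI, Finset.mem_filter, Finset.mem_range]; exact ⟨hi, hu.2⟩, rfl⟩
    exact le_trans (Finset.card_le_card this) Finset.card_image_le
  have hpair : ∀ i ∈ I, ∀ j ∈ I, i < j →
      (j - i ≤ 2 ∧ j - i + 2 < r) ∨ (L - (j - i) ≤ 2 ∧ L - (j - i) + 2 < r) := by
    intro i hi j hj hij
    rw [hI, Finset.mem_filter, Finset.mem_range] at hi hj
    have := h.bridge hr hp (Pth.singleton v) (by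
      intro x hx
      rw [List.mem_singleton] at hx
      subst hx
      exact ⟨hv, hvc⟩) hij hj.1 hi.2 hj.2
    simp only [List.length_singleton] at this
    omega
  rcases I.eq_empty_or_nonempty with h0 | hne
  · have : I.card = 0 := by rw [h0]; rfl
    omega
  set i0 := I.min' hne with hi0
  have hi0m : i0 ∈ I := Finset.min'_mem _ _
  have hi0l : ∀ j ∈ I, j = i0 ∨ i0 < j := by
    intro j hj
    have := Finset.min'_le I j hj
    rw [← hi0] at this
    omega
  have hrange : ∀ j ∈ I, j < L := by
    intro j hj
    rw [hI, Finset.mem_filter, Finset.mem_range] at hj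
    exact hj.1
  have hc3 : ∀ a b c : ℕ, ({a, b, c} : Finset ℕ).card ≤ 3 := fun a b c => Finset.card_le_three
  have hc2 : ∀ a b : ℕ, ({a, b} : Finset ℕ).card ≤ 2 := fun a b => Finset.card_le_two
  have hI3 : I.card ≤ 3 := by
    by_cases ha : i0 + 2 ∈ I
    · refine le_trans (Finset.card_le_card (t := {i0, i0 + 1, i0 + 2}) ?_) (hc3 _ _ _)
      intro j hj
      have h1 := hi0l j hj
      have h2 := hrange j hj
      have h3 : i0 + 2 < j → _ := fun hlt => hpair _ ha _ hj hlt
      have h4 : i0 < j → _ := fun hlt => hpair _ hi0m _ hj hlt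
      simp only [Finset.mem_insert, Finset.mem_singleton]
      by_contra hcon
      have := h3 (by omega)
      have := h4 (by omega)
      omega
    · by_cases hb : i0 + (L - 2) ∈ I
      · refine le_trans (Finset.card_le_card (t := {i0, i0 + (L - 2), i0 + (L - 1)}) ?_)
          (hc3 _ _ _)
        intro j hj
        have h1 := hi0l j hj
        have h2 := hrange j hj
        have h3 : j < i0 + (L - 2) → _ := fun hlt => hpair _ hj _ hb hlt
        have h4 : i0 < j → _ := fun hlt => hpair _ hi0m _ hj hlt
        simp only [Finset.mem_insert, Finset.mem_singleton]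
        by_contra hcon
        have h5 := h4 (by omega)
        rcases Nat.lt_or_ge j (i0 + (L - 2)) with h6 | h6
        · have := h3 h6
          omega
        · omega
      · refine le_trans (Finset.card_le_card (t := {i0, i0 + 1, i0 + (L - 1)}) ?_) (hc3 _ _ _)
        intro j hj
        have h1 := hi0l j hj
        have h2 := hrange j hj
        have h4 : i0 < j → _ := fun hlt => hpair _ hi0m _ hj hlt
        simp only [Finset.mem_insert, Finset.mem_singleton]
        by_contra hcon
        have h5 := h4 (by omega)
        have h6 : j ≠ i0 + 2 := fun hh => ha (hh ▸ hj)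
        have h7 : j ≠ i0 + (L - 2) := fun hh => hb (hh ▸ hj)
        omega
  refine ⟨by omega, ?_⟩
  rcases Nat.lt_or_ge r 5 with hr5 | hr5
  · have hI2 : I.card ≤ 2 := by
      by_cases ha : i0 + 1 ∈ I
      · refine le_trans (Finset.card_le_card (t := {i0, i0 + 1}) ?_) (hc2 _ _)
        intro j hj
        have h1 := hi0l j hj
        have h2 := hrange j hj
        have h3 : i0 + 1 < j → _ := fun hlt => hpair _ ha _ hj hlt
        have h4 : i0 < j → _ := fun hlt => hpair _ hi0m _ hj hlt
        simp only [Finset.mem_insert, Finset.mem_singleton]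
        by_contra hcon
        have := h3 (by omega)
        have := h4 (by omega)
        omega
      · refine le_trans (Finset.card_le_card (t := {i0, i0 + (L - 1)}) ?_) (hc2 _ _)
        intro j hj
        have h1 := hi0l j hj
        have h2 := hrange j hj
        have h4 : i0 < j → _ := fun hlt => hpair _ hi0m _ hj hlt
        simp only [Finset.mem_insert, Finset.mem_singleton]
        by_contra hcon
        have h5 := h4 (by omega)
        have h6 : j ≠ i0 + 1 := fun hh => ha (hh ▸ hj)
        omega
    omega
  · omega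

end Pool.Agent.Helper14.LongCyc
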