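import Pool.Agent.Helper14.LongCyc.Short

set_option linter.all false

namespace Pool.Agent.Helper14.LongCyc

universe u

variable {V : Type u} {G : SimpleGraph V}

/-- the least natural number at least `2 k r / 3` -/
def Fk (r k : ℕ) : ℕ := (2 * k * r + 2) / 3

theorem num_Fk {r k : ℕ} (hr : 3 ≤ r) (hk : 2 ≤ k) : Num k r (Fk r k) := by
  intro d hd
  have hF : ∀ y, 3 * y ≤ 2 * k * r + 2 → y ≤ Fk r k := by
    intro y hy
    unfold Fk
    omega
  rcases Nat.lt_trichotomy d 1 with h0 | h1 | h2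
  · have hd0 : d = 0 := by omega
    subst hd0
    refine ⟨(r + 1) / 2, by omega, ?_, ?_⟩
    · apply hF
      have h1 : 2 * ((r + 1) / 2) ≤ r + 1 := by omega
      have h2 : k * (2 * ((r + 1) / 2)) ≤ k * (r + 1) := Nat.mul_le_mul_left _ h1
      nlinarith
    · simp [Lf]; omega
  · subst h1
    refine ⟨(r + 2) / 3, by omega, ?_, ?_⟩
    · apply hF
      have h1 : 3 * ((r + 2) / 3) ≤ r + 2 := by omega
      have h2 : k * (3 * ((r + 2) / 3)) ≤ k * (r + 2) := Nat.mul_le_mul_left _ h1
      nlinarith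
    · simp [Lf]; omega
  · have hLf : Lf d = d := by unfold Lf; rw [if_neg (by omega)]; omega
    rw [hLf]
    set l := (r + d) / (d + 1) with hl
    have hl1 : l * (d + 1) ≤ r + d := Nat.div_mul_le_self _ _
    have hl2 : r + d < (l + 1) * (d + 1) := by
      have := Nat.lt_div_mul_add (a := r + d) (b := d + 1) (by omega)
      rw [← hl] at this
      linarith [this]
    refine ⟨l, ?_, ?_, by nlinarith⟩
    · rw [hl]
      exact (Nat.one_le_div_iff (by omega)).2 (by omega)
    · apply hF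
      rcases Nat.lt_or_ge (r - 2) d with hdr | hdr
      · -- d = r - 1
        have hdr' : r = d + 1 := by omega
        have hl1' : l = 1 := by
          have h3 : l * (d + 1) < 2 * (d + 1) := by omega
          have h4 : l < 2 := lt_of_mul_lt_mul_right h3 (Nat.zero_le _)
          have h5 : 1 ≤ l := by
            rw [hl]
            exact (Nat.one_le_div_iff (by omega)).2 (by omega)
          omega
        rw [hl1', hdr']
        nlinarith
      · by_contra hcon
        push Not at hcon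
        obtain ⟨e, he⟩ : ∃ e, r = d + 2 + e := ⟨r - 2 - d, by omega⟩
        obtain ⟨g, hg⟩ : ∃ g, k = 2 + g := ⟨k - 2, by omega⟩
        obtain ⟨c, hc⟩ : ∃ c, d = 2 + c := ⟨d - 2, by omega⟩
        have h3 : 2 * k * r + 3 ≤ 3 * (k * l + d) := by omega
        have h4 : (2 * k * r + 3) * (d + 1) ≤ 3 * (k * l + d) * (d + 1) :=
          Nat.mul_le_mul_right _ h3
        have h5 : k * (l * (d + 1)) ≤ k * (r + d) := Nat.mul_le_mul_left _ hl1
        have h6 : (2 * k * r + 3) * (d + 1) ≤ 3 * (k * (r + d)) + 3 * d * (d + 1) := by nlinarith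
        clear hcon h3 h4 h5 hl1 hl2 hF hLf
        subst hg hc he
        ring_nf at h6
        nlinarith [Nat.zero_le (e * c), Nat.zero_le (e * g), Nat.zero_le (c * g),
          Nat.zero_le (c * c * g), Nat.zero_le (e * c * g), Nat.zero_le (c * c)]

theorem Fk_step {r k : ℕ} (hr : 3 ≤ r) {q : ℕ} (hq : 3 * q ≤ 2 * r) :
    Fk r k + q ≤ Fk r (k + 1) := by
  unfold Fk
  have : 2 * (k + 1) * r + 2 = 2 * k * r + 2 + 2 * r := by ring
  omega

theorem dg_sdiff [DecidableEq V] (U C : Finset V) (v : V) :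
    dg G U v ≤ dg G (U \ C) v + dg G C v := by
  apply dg_split
  intro u hu _
  by_cases h : u ∈ C
  · exact Or.inr h
  · exact Or.inl (Finset.mem_sdiff.2 ⟨hu, h⟩)

/-- absorbing short long cycles into the exceptional set -/
theorem absorb [DecidableEq V] {r : ℕ} (L0 : ℕ) {U : Finset V} : ∀ (k : ℕ) (X : Finset V), X ⊆ U →
    Packs G r k (U \ X) ∨ ∃ X1, X ⊆ X1 ∧ X1 ⊆ U ∧ X1.card ≤ X.card + k * L0 ∧
      ∀ l, Cyc G l → (∀ x ∈ l, x ∈ U \ X1) → r ≤ l.length → L0 < l.length := by
  intro k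
  induction k with
  | zero => intro X _; exact Or.inl Packs.zero
  | succ k ih =>
    intro X hX
    by_cases h : ∀ l, Cyc G l → (∀ x ∈ l, x ∈ U \ X) → r ≤ l.length → L0 < l.length
    · exact Or.inr ⟨X, Finset.Subset.refl _, hX, by omega, h⟩
    · push Not at h
      obtain ⟨l, hl, hlU, hlr, hl0⟩ := h
      have hlU' : l.toFinset ⊆ U := fun x hx =>
        (Finset.mem_sdiff.1 (hlU x (List.mem_toFinset.1 hx))).1
      rcases ih (X ∪ l.toFinset) (Finset.union_subset hX hlU') with h1 | ⟨X1, h1, h2, h3, h4⟩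
      · left
        refine Packs.succ hl hlr hlU ?_
        rwa [sdiff_sdiff_left]
      · right
        refine ⟨X1, Finset.subset_union_left.trans h1, h2, ?_, h4⟩
        have h5 := Finset.card_union_le X l.toFinset
        have h6 := List.toFinset_card_le l
        rw [Nat.succ_mul]
        omega

/-- the packing property for large regions -/
def Big.{v} (r k F : ℕ) : Prop :=
  ∀ x : ℕ, ∃ N : ℕ, ∀ (V : Type v) [DecidableEq V] (G : SimpleGraph V) (U X : Finset V), X ⊆ U →
    X.card ≤ x → (∀ v ∈ U \ X, F ≤ dg G U v) → N ≤ (U \ X).card → Packs G r k U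

/-- the packing property after removing a shortest long cycle -/
def Prev.{v} (r k F : ℕ) : Prop :=
  ∀ x : ℕ, ∃ N : ℕ, ∀ (V : Type v) [DecidableEq V] (G : SimpleGraph V) (U X : Finset V)
    (c : List V), X ⊆ U → X.card ≤ x → (∀ v ∈ U \ X, F ≤ dg G U v) → Shortest G r (U \ X) c →
    N ≤ ((U \ c.toFinset) \ X).card → Packs G r k (U \ c.toFinset)

theorem big_of_prev {r k F : ℕ} (hr : 3 ≤ r) (hN : Num (k + 1) r F) (hprev : Prev.{u} r k F) :
    Big.{u} r (k + 1) F := by
  intro x
  obtain ⟨N', hN'⟩ := hprev (x + (k + 1) * (9 * r))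
  set x1 := x + (k + 1) * (9 * r) with hx1
  refine ⟨caseN r F x1 + caseN r F (x1 + N' + 1) + x1 + N' + 1, ?_⟩
  intro V _ G U X hXU hX hdeg hcard
  rcases absorb (G := G) (r := r) (9 * r) (k + 1) X hXU with h | ⟨X1, h1, h2, h3, h4⟩
  · exact h.mono Finset.sdiff_subset
  have hX1 : X1.card ≤ x1 := by omega
  have hdeg1 : ∀ v ∈ U \ X1, F ≤ dg G U v := by
    intro v hv
    rw [Finset.mem_sdiff] at hv
    exact hdeg v (Finset.mem_sdiff.2 ⟨hv.1, fun h => hv.2 (h1 h)⟩)
  have hcU : (U \ X).card ≤ U.card := Finset.card_le_card Finset.sdiff_subset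
  have hcX1 : (U \ X1).card = U.card - X1.card := Finset.card_sdiff_of_subset h2
  by_cases hnl : NoLong G r (U \ X1)
  · exact caseII hr hN h2 hX1 hnl hdeg1 (by omega)
  · -- a shortest long cycle
    have hex : ∃ n, ∃ l, Cyc G l ∧ (∀ x ∈ l, x ∈ U \ X1) ∧ r ≤ l.length ∧ l.length = n := by
      unfold NoLong at hnl
      push Not at hnl
      obtain ⟨l, hl1, hl2, hl3⟩ := hnl
      exact ⟨_, l, hl1, hl2, hl3, rfl⟩
    classical
    obtain ⟨c, hc1, hc2, hc3, hc4⟩ := Nat.find_spec hex
    have hmin : ∀ l, Cyc G l → (∀ x ∈ l, x ∈ U \ X1) → r ≤ l.length → c.length ≤ l.length := by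
      intro l hl1 hl2 hl3
      rw [hc4]
      exact Nat.find_min' hex ⟨l, hl1, hl2, hl3, rfl⟩
    have hsh : Shortest G r (U \ X1) c := ⟨hc1, hc2, h4 c hc1 hc2 hc3, hmin⟩
    have hcU' : c.toFinset ⊆ U := fun y hy =>
      (Finset.mem_sdiff.1 (hc2 y (List.mem_toFinset.1 hy))).1
    by_cases hbig : N' ≤ ((U \ c.toFinset) \ X1).card
    · exact Packs.succ hc1 hc3 (fun y hy => hcU' (List.mem_toFinset.2 hy))
        (hN' V G U X1 c h2 hX1 hdeg1 hsh hbig)
    · push Not at hbig
      have hpos : 0 < c.length := by have := hc1.1; omega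
      obtain ⟨c0, hc0⟩ := List.exists_mem_of_length_pos hpos
      set X2 := (U \ c.toFinset) ∪ {c0} with hX2
      have hX2U : X2 ⊆ U := Finset.union_subset Finset.sdiff_subset
        (Finset.singleton_subset_iff.2 (hcU' (List.mem_toFinset.2 hc0)))
      have hX1X2 : X1 ⊆ X2 := by
        intro y hy
        refine Finset.mem_union_left _ (Finset.mem_sdiff.2 ⟨h2 hy, fun hyc => ?_⟩)
        exact (Finset.mem_sdiff.1 (hc2 y (List.mem_toFinset.1 hyc))).2 hy
      have hcard2 : X2.card ≤ x1 + N' + 1 := by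
        have h5 : (U \ c.toFinset).card ≤ ((U \ c.toFinset) \ X1).card + X1.card := by
          have := Finset.card_le_card_sdiff_add_card (s := U \ c.toFinset) (t := X1)
          exact this
        have h6 := Finset.card_union_le (U \ c.toFinset) {c0}
        rw [Finset.card_singleton] at h6
        rw [hX2]
        omega
      have hsub2 : ∀ y ∈ U \ X2, y ∈ c ∧ y ≠ c0 := by
        intro y hy
        rw [hX2, Finset.mem_sdiff, Finset.mem_union, Finset.mem_sdiff, Finset.mem_singleton,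
          List.mem_toFinset] at hy
        tauto
      have hnl2 : NoLong G r (U \ X2) := by
        intro l hl hlm
        by_contra hlr
        push Not at hlr
        have h5 := hmin l hl (fun y hy => hc2 y (hsub2 y (hlm y hy)).1) hlr
        obtain ⟨_, a, b, hab, _⟩ := hl
        have h6 : l.length ≤ (c.toFinset.erase c0).card := hab.length_le (by
          intro y hy
          rw [Finset.mem_erase, List.mem_toFinset]
          exact ⟨(hsub2 y (hlm y hy)).2, (hsub2 y (hlm y hy)).1⟩)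
        rw [Finset.card_erase_of_mem (List.mem_toFinset.2 hc0)] at h6
        have h7 := List.toFinset_card_le c
        omega
      have hcX2 : (U \ X2).card = U.card - X2.card := Finset.card_sdiff_of_subset hX2U
      refine caseII hr hN hX2U hcard2 hnl2 ?_ (by omega)
      intro v hv
      refine hdeg1 v ?_
      rw [Finset.mem_sdiff] at hv ⊢
      exact ⟨hv.1, fun h => hv.2 (hX1X2 h)⟩

theorem prev_one {r : ℕ} (hr : 3 ≤ r) : Prev.{u} r 1 (Fk r 2) := by
  intro x
  refine ⟨tN r x, ?_⟩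
  intro V _ G U X c hXU hX hdeg hsh hcard
  classical
  have hXU' : X ⊆ U \ c.toFinset := by
    intro y hy
    refine Finset.mem_sdiff.2 ⟨hXU hy, fun hyc => ?_⟩
    exact (Finset.mem_sdiff.1 (hsh.sub y (List.mem_toFinset.1 hyc))).2 hy
  have hmem : ∀ v ∈ (U \ c.toFinset) \ X, v ∈ U \ X ∧ v ∉ c := by
    intro v hv
    rw [Finset.mem_sdiff, Finset.mem_sdiff, List.mem_toFinset] at hv
    exact ⟨Finset.mem_sdiff.2 ⟨hv.1.1, hv.2⟩, hv.1.2⟩
  have hF2 : 4 * r ≤ 3 * Fk r 2 := by unfold Fk; omega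
  have hnn := tOne (G := G) (x := x) hr hXU' hX ?_ ?_ hcard
  · unfold NoLong at hnn
    push Not at hnn
    obtain ⟨l, hl1, hl2, hl3⟩ := hnn
    exact Packs.succ hl1 hl3 hl2 Packs.zero
  · intro v hv
    obtain ⟨h1, h2⟩ := hmem v hv
    have h3 := hsh.cost hr h1 h2
    have h4 := hdeg v h1
    have h5 := dg_sdiff (G := G) U c.toFinset v
    omega
  · intro a b p hp hpm hp1 hp2
    by_contra hcon
    rw [not_or] at hcon
    have hzero : ∀ v ∈ (U \ c.toFinset) \ X, ¬ r ≤ dg G (U \ c.toFinset) v →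
        ∃ y ∈ c, G.Adj v y := by
      intro v hv hlt
      obtain ⟨h1, h2⟩ := hmem v hv
      have h4 := hdeg v h1
      have h5 := dg_sdiff (G := G) U c.toFinset v
      have h6 : 0 < dg G c.toFinset v := by omega
      unfold dg at h6
      obtain ⟨y, hy⟩ := Finset.card_pos.1 h6
      rw [Finset.mem_filter, List.mem_toFinset] at hy
      exact ⟨y, hy⟩
    obtain ⟨y, hy, hay⟩ := hzero a (hpm a hp.head_mem) hcon.1
    obtain ⟨y', hy', hby'⟩ := hzero b (hpm b hp.last_mem) hcon.2
    exact hsh.no_attach hr hp (fun z hz => hmem z (hpm z hz)) hp1 hp2 hy hy' hay hby'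

theorem prev_of_big {r k : ℕ} (hr : 3 ≤ r) (h : Big.{u} r k (Fk r k)) :
    Prev.{u} r k (Fk r (k + 1)) := by
  intro x
  obtain ⟨N, hN⟩ := h x
  refine ⟨N, ?_⟩
  intro V _ G U X c hXU hX hdeg hsh hcard
  have hXU' : X ⊆ U \ c.toFinset := by
    intro y hy
    refine Finset.mem_sdiff.2 ⟨hXU hy, fun hyc => ?_⟩
    exact (Finset.mem_sdiff.1 (hsh.sub y (List.mem_toFinset.1 hyc))).2 hy
  refine hN V G (U \ c.toFinset) X hXU' hX ?_ hcard
  intro v hv
  rw [Finset.mem_sdiff, Finset.mem_sdiff, List.mem_toFinset] at hv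
  have h1 : v ∈ U \ X := Finset.mem_sdiff.2 ⟨hv.1.1, hv.2⟩
  have h3 := hsh.cost hr h1 hv.1.2
  have h4 := hdeg v h1
  have h5 := dg_sdiff (G := G) U c.toFinset v
  have h6 := Fk_step (k := k) hr h3.2
  omega

theorem big_all {r : ℕ} (hr : 3 ≤ r) : ∀ k, 2 ≤ k → Big.{u} r k (Fk r k) := by
  intro k hk
  induction k, hk using Nat.le_induction with
  | base => exact big_of_prev hr (num_Fk hr le_rfl) (prev_one hr)
  | succ k hk ih => exact big_of_prev hr (num_Fk hr (by omega)) (prev_of_big hr ih)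

/-- Large graphs of minimum degree at least `2 k r / 3` contain `k` disjoint cycles of
length at least `r`. -/
theorem main (k r : ℕ) (hk : 2 ≤ k) (hr : 3 ≤ r) : ∃ n₀ : ℕ, ∀ (V : Type u) [Fintype V]
    (G : SimpleGraph V) [DecidableRel G.Adj], n₀ ≤ Fintype.card V →
    (2 / 3 : ℝ) * k * r ≤ (G.minDegree : ℝ) →
    ∃ (a : Fin k → V) (c : (i : Fin k) → G.Walk (a i) (a i)),
      (∀ i, (c i).IsCycle ∧ r ≤ (c i).length) ∧
      ∀ i j, i ≠ j → ∀ x, x ∈ (c i).support → x ∉ (c j).support := by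
  obtain ⟨N, hN⟩ := big_all.{u} hr k hk 0
  refine ⟨N, ?_⟩
  intro V _ G _ hcard hdeg
  classical
  have hdeg' : ∀ v : V, Fk r k ≤ G.degree v := by
    intro v
    have h1 : (2 / 3 : ℝ) * k * r ≤ (G.degree v : ℝ) := by
      refine le_trans hdeg ?_
      exact_mod_cast G.minDegree_le_degree v
    have h2 : (2 * k * r : ℝ) ≤ 3 * (G.degree v : ℝ) := by linarith
    have h3 : 2 * k * r ≤ 3 * G.degree v := by exact_mod_cast h2
    unfold Fk
    omega
  have hP := hN V G Finset.univ ∅ (Finset.empty_subset _) (by simp) (by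
    intro v _
    have : dg G Finset.univ v = G.degree v := by
      unfold dg
      rw [← G.card_neighborFinset_eq_degree]
      congr 1
      ext u
      simp
    rw [this]
    exact hdeg' v) (by simpa using hcard)
  obtain ⟨C, h1, h2⟩ := hP
  have h3 : ∀ i : Fin k, ∃ (a : V) (c : G.Walk a a), c.IsCycle ∧ c.length = (C i).length ∧
      ∀ x, x ∈ c.support → x ∈ C i := fun i => (h1 i i.2).1.exists_walk
  choose a c hc using h3
  refine ⟨a, c, fun i => ⟨(hc i).1, ?_⟩, ?_⟩
  · rw [(hc i).2.1]; exact (h1 i i.2).2.1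
  · intro i j hij x hx hx'
    exact h2 i i.2 j j.2 (fun h => hij (Fin.ext h)) x ((hc i).2.2 x hx) ((hc j).2.2 x hx')

end Pool.Agent.Helper14.LongCyc
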