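import Pool.Agent.Helper14.LongCyc.Chain

set_option linter.all false

namespace Pool.Agent.Helper14.LongCyc

variable {V : Type*} {G : SimpleGraph V}

theorem exists_max_nat {α : Type*} (P : α → Prop) (f : α → ℕ) (N : ℕ) (hN : ∀ x, P x → f x ≤ N)
    (hne : ∃ x, P x) : ∃ x, P x ∧ ∀ y, P y → f y ≤ f x := by
  have key : ∀ n, ∀ x, P x → N - f x ≤ n → ∃ x, P x ∧ ∀ y, P y → f y ≤ f x := by
    intro n
    induction n with
    | zero =>
      intro x hx hn
      refine ⟨x, hx, fun y hy => ?_⟩
      have := hN y hy
      omega
    | succ n ih =>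
      intro x hx hn
      by_cases h : ∀ y, P y → f y ≤ f x
      · exact ⟨x, hx, h⟩
      · push Not at h
        obtain ⟨y, hy, hxy⟩ := h
        have := hN y hy
        exact ih y hy (by omega)
  obtain ⟨x, hx⟩ := hne
  exact key _ x hx le_rfl

theorem dg_le_card (W : Finset V) (v : V) : dg G W v ≤ W.card := by
  classical
  unfold dg
  exact Finset.card_filter_le _ _

theorem Pth.length_le {a b : V} {p : List V} {B : Finset V} (hp : Pth G a b p)
    (hB : ∀ x ∈ p, x ∈ B) : p.length ≤ B.card := by
  classical
  rw [← List.toFinset_card_of_nodup hp.1]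
  exact Finset.card_le_card fun x hx => hB x (List.mem_toFinset.1 hx)

/-- the piece lemma: inside a nonempty region without long cycles there is a path whose two
ends have few neighbours in the region compared with the length of the path -/
theorem piece {r : ℕ} (hr : 3 ≤ r) {B : Finset V} (hB : NoLong G r B) (hne : B.Nonempty) :
    ∃ a b Q d, Pth G a b Q ∧ (∀ x ∈ Q, x ∈ B) ∧ dg G B a ≤ d ∧ dg G B b ≤ d ∧
      (d = 0 ∨ (1 ≤ d ∧ d ≤ r - 2 ∧ d ≤ Q.length ∧ 2 ≤ Q.length)) := by
  classical
  obtain ⟨x0, hx0⟩ := hne
  obtain ⟨⟨a, b, p⟩, ⟨hp, hpB⟩, hmax⟩ := exists_max_nat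
    (α := V × V × List V) (fun w => Pth G w.1 w.2.1 w.2.2 ∧ ∀ x ∈ w.2.2, x ∈ B)
    (fun w => w.2.2.length * (B.card + 1) + dg G B w.1) (B.card * (B.card + 1) + B.card)
    (by
      rintro ⟨a, b, p⟩ ⟨hp, hpB⟩
      have h1 := hp.length_le hpB
      have h2 := dg_le_card (G := G) B a
      simp only
      nlinarith [Nat.mul_le_mul_right (B.card + 1) h1])
    ⟨⟨x0, x0, [x0]⟩, Pth.singleton _, by simpa using hx0⟩
  simp only at hp hpB hmax
  -- longest
  have hlong : ∀ a' b' p', Pth G a' b' p' → (∀ x ∈ p', x ∈ B) → p'.length ≤ p.length := by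
    intro a' b' p' h1 h2
    have := hmax ⟨a', b', p'⟩ ⟨h1, h2⟩
    simp only at this
    have h3 := dg_le_card (G := G) B a
    by_contra hcon
    push Not at hcon
    nlinarith [Nat.mul_le_mul_right (B.card + 1) (Nat.succ_le_of_lt hcon)]
  have hdeg : ∀ a' b' p', Pth G a' b' p' → (∀ x ∈ p', x ∈ B) → p'.length = p.length →
      dg G B a' ≤ dg G B a := by
    intro a' b' p' h1 h2 h3
    have := hmax ⟨a', b', p'⟩ ⟨h1, h2⟩
    simp only [h3] at this
    omega
  obtain ⟨t, rfl⟩ : ∃ t, p = a :: t := by
    have := hp.2.2.1
    cases p with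
    | nil => simp at this
    | cons x t =>
      simp only [List.head?_cons, Option.some.injEq] at this
      exact ⟨t, by rw [this]⟩
  have hnb : ∀ u ∈ B, G.Adj a u → u ∈ t := by
    intro u hu hau
    by_contra hut
    have hup : u ∉ a :: t := by
      rw [List.mem_cons]
      rintro (h | h)
      · exact hau.ne h.symm
      · exact hut h
    have := hlong u b (u :: a :: t) (hp.cons hau.symm hup) (by
      intro x hx
      rw [List.mem_cons] at hx
      rcases hx with rfl | hx
      · exact hu
      · exact hpB x hx)
    simp at this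
  rcases Nat.eq_zero_or_pos (dg G B a) with h0 | hpos
  · exact ⟨a, a, [a], 0, Pth.singleton _, by simpa using hpB a (by simp), by omega, by omega,
      Or.inl rfl⟩
  · -- there is a neighbour
    have hexn : ∃ u ∈ B, G.Adj a u := by
      unfold dg at hpos
      obtain ⟨u, hu⟩ := Finset.card_pos.1 hpos
      rw [Finset.mem_filter] at hu
      exact ⟨u, hu⟩
    obtain ⟨u0, hu0B, hau0⟩ := hexn
    have hu0t := hnb u0 hu0B hau0
    have htpos : 0 < t.length := List.length_pos_of_mem hu0t
    rcases Nat.lt_or_ge 1 (dg G B a) with h2 | h1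
    · -- degree at least two: rotation
      obtain ⟨i, ⟨hi, hai⟩, himax⟩ := exists_max_nat (fun i => ∃ h : i < t.length, G.Adj a t[i])
        (fun i => i) t.length (fun i hi => hi.1.le) (by
          obtain ⟨i, hi, hiu⟩ := List.getElem_of_mem hu0t
          exact ⟨i, hi, by rw [hiu]; exact hau0⟩)
      have hsub : (B.filter fun u => G.Adj a u) ⊆ (t.take (i + 1)).toFinset := by
        intro u hu
        rw [Finset.mem_filter] at hu
        obtain ⟨j, hj, hju⟩ := List.getElem_of_mem (hnb u hu.1 hu.2)
        have := himax j ⟨hj, by rw [hju]; exact hu.2⟩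
        rw [List.mem_toFinset, List.mem_iff_getElem]
        refine ⟨j, by rw [List.length_take]; omega, ?_⟩
        rw [List.getElem_take]; exact hju
      have hd1 : dg G B a ≤ i + 1 := by
        calc dg G B a = _ := rfl
          _ ≤ _ := Finset.card_le_card hsub
          _ ≤ _ := List.toFinset_card_le _
          _ ≤ i + 1 := by rw [List.length_take]; omega
      -- decomposition of t at i
      obtain ⟨s, w, y, rfl, hs⟩ : ∃ s w y, t = s ++ y :: w ∧ s.length = i := by
        refine ⟨t.take i, t.drop (i + 1), t[i], ?_, by rw [List.length_take]; omega⟩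
        rw [← List.drop_eq_getElem_cons hi, List.take_append_drop]
      have hay : G.Adj a y := by
        have : (s ++ y :: w)[i] = y := by
          rw [List.getElem_append_right (by omega)]
          simp [hs]
        rw [this] at hai; exact hai
      -- the last element of a :: s
      have hsne : s ≠ [] := by
        rintro rfl
        simp at hs; omega
      obtain ⟨s', f, rfl⟩ : ∃ s' f, s = s' ++ [f] := ⟨s.dropLast, s.getLast hsne,
        (List.dropLast_append_getLast hsne).symm⟩
      have hQ : Pth G a f (a :: (s' ++ [f])) := by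
        have e : a :: (s' ++ [f] ++ y :: w) = (a :: s') ++ f :: (y :: w) := by simp
        rw [e] at hp
        have := hp.pre
        simpa using this
      have hyw : Pth G y b (y :: w) := by
        have e : a :: (s' ++ [f] ++ y :: w) = (a :: (s' ++ [f])) ++ y :: w := by simp
        rw [e] at hp
        exact hp.suf
      have hrot : Pth G f b ((a :: (s' ++ [f])).reverse ++ y :: w) := by
        refine hQ.reverse.append hyw hay ?_
        intro x hx hx'
        rw [List.mem_reverse] at hx
        have hnd := hp.1
        have e : a :: (s' ++ [f] ++ y :: w) = (a :: (s' ++ [f])) ++ y :: w := by simp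
        rw [e, List.nodup_append] at hnd
        exact hnd.2.2 x hx x hx' rfl
      have hfdeg : dg G B f ≤ dg G B a := by
        refine hdeg f b _ hrot ?_ ?_
        · intro x hx
          apply hpB
          simp only [List.mem_append, List.mem_reverse, List.mem_cons] at hx ⊢
          tauto
        · simp
      have hcyc : Pth G a y (a :: (s' ++ [f]) ++ [y]) := by
        have e : a :: (s' ++ [f] ++ y :: w) = (a :: (s' ++ [f])) ++ y :: w := by simp
        rw [e] at hp
        exact hp.pre
      have hs1 : s'.length + 1 = i := by simpa using hs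
      have hlt := hB _ ⟨by simp, _, _, hcyc, hay.symm⟩ (by
        intro x hx
        apply hpB
        simp only [List.mem_append, List.mem_cons, List.not_mem_nil, or_false] at hx ⊢
        tauto)
      have hcl : (a :: (s' ++ [f]) ++ [y]).length = i + 2 := by simp; omega
      rw [hcl] at hlt
      refine ⟨a, f, a :: (s' ++ [f]), dg G B a, hQ, ?_, le_rfl, hfdeg, Or.inr ⟨by omega, by omega,
        ?_, ?_⟩⟩
      · intro x hx
        apply hpB
        simp only [List.mem_append, List.mem_cons, List.not_mem_nil, or_false] at hx ⊢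
        tauto
      · simp; omega
      · simp
    · -- degree one: the whole path
      have hb : dg G B b ≤ dg G B a := hdeg b a _ hp.reverse (by
        intro x hx; exact hpB x (List.mem_reverse.1 hx)) (by simp)
      refine ⟨a, b, a :: t, dg G B a, hp, hpB, le_rfl, hb, Or.inr ⟨by omega, by omega, ?_, ?_⟩⟩
      · simp; omega
      · simp; omega

end Pool.Agent.Helper14.LongCyc
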