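import Pool.Agent.Helper14.LongCyc.CaseTwo

set_option linter.all false

namespace Pool.Agent.Helper14.LongCyc

universe u

variable {V : Type u} {G : SimpleGraph V}

/-- parameters for the case without long cycles -/
def mT (r F x : ℕ) : ℕ := r * (2 ^ x * 2 ^ x) * (2 * F)

def rT (r F x : ℕ) : ℕ := 5 * r * mT r F x

def mA (r F x : ℕ) : ℕ := mT r F (x + rT r F x + 1)

def caseN (r F x : ℕ) : ℕ := mA r F x * chN (mA r F x) (rT r F x) + 1

theorem caseII [DecidableEq V] {k r F x : ℕ} (hr : 3 ≤ r) (hN : Num k r F) {U X : Finset V}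
    (hXU : X ⊆ U) (hX : X.card ≤ x) (hnl : NoLong G r (U \ X)) (hdeg : ∀ v ∈ U \ X, F ≤ dg G U v)
    (hcard : caseN r F x ≤ (U \ X).card) : Packs G r k U := by
  classical
  set W := U \ X with hW
  set R := rT r F x with hR
  set MA := mA r F x with hMA
  by_cases hc : MA ≤ (comps G W).card
  · refine packs_of_closed (Y := ∅) (x' := x + R + 1) hr hN hXU (Finset.empty_subset _)
      (by simp; omega) hnl hdeg (comps G W) ?_ ?_ ?_ ?_ hc
    · intro D hD
      obtain ⟨a, ha, rfl⟩ := mem_comps.1 hD
      exact ⟨a, self_mem_comp ha⟩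
    · intro D hD
      obtain ⟨a, ha, rfl⟩ := mem_comps.1 hD
      rw [Finset.union_empty]
      exact comp_subset _ _
    · intro D hD u hu u' hu' hadj
      obtain ⟨a, ha, rfl⟩ := mem_comps.1 hD
      exact Or.inl (comp_adj hu hu' hadj)
    · intro D hD D' hD' hne
      exact comps_disj hD hD' hne
  · push Not at hc
    have hex : ∃ D ∈ comps G W, chN MA R ≤ D.card := by
      by_contra hcon
      push Not at hcon
      have h1 := comps_card hcon hc
      have h2 : caseN r F x = MA * chN MA R + 1 := rfl
      omega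
    obtain ⟨C, hC, hCc⟩ := hex
    obtain ⟨v0, hv0, rfl⟩ := mem_comps.1 hC
    obtain ⟨R', hR', K, w, hch, hK0, hw0, hor⟩ :=
      chain_exists MA R (comp G W v0) v0 (self_mem_comp hv0) comp_conn hCc
    have hKW : K 0 ⊆ W := by rw [hK0]; exact comp_subset _ _
    have hcl : ∀ u ∈ K 0, ∀ u' ∈ W, G.Adj u u' → u' ∈ K 0 := by
      intro u hu u' hu' hadj
      rw [hK0] at hu ⊢
      exact comp_adj hu hu' hadj
    rcases hor with rfl | hbr
    · -- tall case
      have hex : ∀ i, i < mT r F x → ∃ z z' P, Pth G z z' P ∧ r - 1 ≤ P.length ∧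
          (∀ y ∈ P, y ∈ K (5 * r * i) ∧ y ∉ K (5 * r * (i + 1))) ∧
          dg G W z ≤ r - 1 ∧ dg G W z' ≤ r - 1 := by
        intro i hi
        have hle : 5 * r * (i + 1) ≤ rT r F x := Nat.mul_le_mul_left _ hi
        have := hch.tall hr hnl hKW hcl (A := 5 * r * i) (by rw [← hR] at hle; linarith)
        rw [Nat.mul_succ]
        exact this
      by_cases hm0 : mT r F x = 0
      · have hF0 : F = 0 := by
          unfold mT at hm0
          by_contra hF
          have h1 : 0 < r := by omega
          have h2 : 0 < F := Nat.pos_of_ne_zero hF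
          have : 0 < r * (2 ^ x * 2 ^ x) * (2 * F) := by positivity
          omega
        have hk0 : k = 0 := by
          obtain ⟨l, h1, h2, _⟩ := hN 0 (Nat.zero_le _)
          have : k * l = 0 := by omega
          rcases Nat.mul_eq_zero.1 this with h | h
          · exact h
          · omega
        subst hk0
        exact Packs.zero
      have hVne : Nonempty V := ⟨v0⟩
      choose! z z' P h using hex
      refine packs_of_pieces hr hN hXU hX (M := mT r F x) (e := z) (f := z') (Q := P)
        (D := fun _ => r - 1) ?_ ?_ le_rfl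
      · intro i hi
        obtain ⟨h1, h2, h3, h4, h5⟩ := h i hi
        have hle : 5 * r * (i + 1) ≤ rT r F x := Nat.mul_le_mul_left _ hi
        have hinW : ∀ y ∈ P i, y ∈ W := fun y hy => hKW (hch.anti (Nat.zero_le _)
          (by rw [← hR] at hle; linarith) (h3 y hy).1)
        have hsp : ∀ y ∈ W, F ≤ dg G X y + dg G W y := by
          intro y hy
          refine le_trans (hdeg y hy) (dg_split ?_)
          intro u hu _
          by_cases huX : u ∈ X
          · exact Or.inl huX
          · exact Or.inr (Finset.mem_sdiff.2 ⟨hu, huX⟩)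
        refine ⟨h1, fun y hy => Finset.mem_sdiff.1 (hinW y hy), le_rfl, ?_, ?_, ?_⟩
        · unfold Lf
          rw [if_neg (by omega)]
          omega
        · have := hsp _ (hinW _ h1.head_mem)
          omega
        · have := hsp _ (hinW _ h1.last_mem)
          omega
      · have key : ∀ i < mT r F x, ∀ j < mT r F x, i < j → ∀ y ∈ P i, y ∉ P j := by
          intro i hi j hj hij y hy hy'
          have h1 := ((h i hi).2.2.1 y hy).2
          have h2 := ((h j hj).2.2.1 y hy').1
          apply h1
          have hle : 5 * r * (j + 1) ≤ rT r F x := Nat.mul_le_mul_left _ hj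
          have hle2 : 5 * r * (i + 1) ≤ 5 * r * j := Nat.mul_le_mul_left _ hij
          exact hch.anti hle2 (by rw [← hR] at hle; linarith) h2
        intro i hi j hj hij y hy hy'
        rcases Nat.lt_or_gt_of_ne hij with h1 | h1
        · exact key i hi j hj h1 y hy hy'
        · exact key j hj i hi h1 y hy' hy
    · -- branching case
      set Y := (Finset.range (R' + 1)).image w with hY
      have hYc : Y.card ≤ R + 1 := by
        calc Y.card ≤ (Finset.range (R' + 1)).card := Finset.card_image_le
          _ ≤ R + 1 := by rw [Finset.card_range]; omega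
      have hYW : Y ⊆ W := by
        intro y hy
        rw [hY, Finset.mem_image] at hy
        obtain ⟨j, hj, rfl⟩ := hy
        rw [Finset.mem_range] at hj
        exact hKW (hch.anti (Nat.zero_le j) (by omega) (hch.mem j (by omega)))
      refine packs_of_closed (Y := Y) (x' := x + R + 1) hr hN hXU
        (hYW.trans Finset.sdiff_subset)
        (le_trans (Finset.card_union_le _ _) (by omega)) hnl hdeg
        (comps G ((K R').erase (w R'))) ?_ ?_ ?_ ?_ hbr
      · intro D hD
        obtain ⟨a, ha, rfl⟩ := mem_comps.1 hD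
        exact ⟨a, self_mem_comp ha⟩
      · intro D hD u hu
        obtain ⟨a, ha, rfl⟩ := mem_comps.1 hD
        have h1 := comp_subset _ _ hu
        rw [Finset.mem_erase] at h1
        have h2 : u ∈ W := hKW (hch.anti (Nat.zero_le _) le_rfl h1.2)
        rw [Finset.mem_sdiff, Finset.mem_union, not_or]
        refine ⟨(Finset.mem_sdiff.1 h2).1, (Finset.mem_sdiff.1 h2).2, ?_⟩
        rw [hY, Finset.mem_image]
        rintro ⟨j, hj, rfl⟩
        rw [Finset.mem_range] at hj
        rcases Nat.lt_or_ge j R' with hlt | hge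
        · exact hch.notMem hlt le_rfl h1.2
        · have : j = R' := by omega
          subst this
          exact h1.1 rfl
      · intro D hD u hu u' hu' hadj
        rcases hch.closed_comps hcl le_rfl hD hu hu' hadj with h | ⟨j, hj, rfl⟩
        · exact Or.inl h
        · refine Or.inr ?_
          rw [hY, Finset.mem_image]
          exact ⟨j, Finset.mem_range.2 (by omega), rfl⟩
      · intro D hD D' hD' hne
        exact comps_disj hD hD' hne

theorem exists_avoid [DecidableEq V] {X : Finset V} {M : ℕ} {B : ℕ → Finset V}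
    (hB : ∀ i < M, ∀ j < M, i ≠ j → Disjoint (B i) (B j)) (hM : X.card < M) :
    ∃ i < M, Disjoint (B i) X := by
  by_contra hcon
  push Not at hcon
  have hex : ∀ i, i < M → ∃ y, y ∈ B i ∧ y ∈ X := by
    intro i hi
    exact Finset.not_disjoint_iff.1 (hcon i hi)
  have hVne : Nonempty V := by
    obtain ⟨y, _⟩ := hex 0 (by omega)
    exact ⟨y⟩
  choose! f hf using hex
  have h1 := Finset.card_le_card_of_injOn (s := Finset.range M) (t := X) f
    (fun i hi => (hf i (Finset.mem_range.1 hi)).2)
    (by
      intro i hi j hj hij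
      rw [Finset.mem_coe, Finset.mem_range] at hi hj
      by_contra hne
      have := hB i hi j hj hne
      exact Finset.disjoint_left.1 this (hf i hi).1 (hij ▸ (hf j hj).1))
  rw [Finset.card_range] at h1
  omega

def tN (r x : ℕ) : ℕ := (x + 1) * chN (x + 1) (5 * r * (x + 1)) + 1

/-- one long cycle from almost minimal degree `r - 1` -/
theorem tOne [DecidableEq V] {r x : ℕ} (hr : 3 ≤ r) {U X : Finset V}
    (hXU : X ⊆ U) (hX : X.card ≤ x) (hdeg : ∀ v ∈ U \ X, r - 1 ≤ dg G U v)
    (hpth : ∀ a b p, Pth G a b p → (∀ y ∈ p, y ∈ U \ X) → r - 1 ≤ p.length → p.length ≤ 4 * r →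
      r ≤ dg G U a ∨ r ≤ dg G U b)
    (hcard : tN r x ≤ (U \ X).card) : ¬ NoLong G r U := by
  classical
  intro hnl
  by_cases hc : x + 1 ≤ (comps G U).card
  · obtain ⟨D, hD1, hD2⟩ := exists_enum _ hc
    obtain ⟨i, hi, hdisj⟩ := exists_avoid (X := X) (M := x + 1) (B := D)
      (fun i hi j hj hij => comps_disj (hD1 i hi) (hD1 j hj)
        (fun h => hij (hD2 i hi j hj h))) (by omega)
    have hDi := hD1 i hi
    obtain ⟨a, ha, hDa⟩ := mem_comps.1 hDi
    have haD : a ∈ D i := hDa ▸ self_mem_comp ha
    obtain ⟨q, z, hq, hz, hza, hmax⟩ := extend (D i) _ _ _ _ le_rfl (Pth.singleton (G := G) a)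
    have hzD : z ∈ D i := by
      rcases hza with rfl | h
      · exact haD
      · exact h
    have hDU : D i ⊆ U := hDa ▸ comp_subset _ _
    have hform : ∃ t, q ++ [a] = z :: t := by
      have := hz.2.2.1
      cases hq' : q ++ [a] with
      | nil => rw [hq'] at this; simp at this
      | cons b t =>
        rw [hq'] at this
        simp only [List.head?_cons, Option.some.injEq] at this
        exact ⟨t, by rw [this]⟩
    obtain ⟨t, ht⟩ := hform
    have hall : ∀ y ∈ q ++ [a], y ∈ U := by
      intro y hy
      rw [List.mem_append, List.mem_singleton] at hy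
      rcases hy with hy | rfl
      · exact hDU (hq y hy)
      · exact ha
    have hnb : ∀ u ∈ U, G.Adj z u → u ∈ q ++ [a] := by
      intro u hu hzu
      refine hmax u ?_ hzu
      rw [← hDa] at hzD ⊢
      exact comp_adj hzD hu hzu
    rw [ht] at hz hall hnb
    have h1 := leaf_deg hr hnl hz hall hnb
    have h2 := hdeg z (Finset.mem_sdiff.2 ⟨hDU hzD, fun h => Finset.disjoint_left.1 hdisj hzD h⟩)
    omega
  · push Not at hc
    have hex : ∃ D ∈ comps G U, chN (x + 1) (5 * r * (x + 1)) ≤ D.card := by
      by_contra hcon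
      push Not at hcon
      have h1 := comps_card hcon hc
      have h2 : tN r x = (x + 1) * chN (x + 1) (5 * r * (x + 1)) + 1 := rfl
      have h3 : (U \ X).card ≤ U.card := Finset.card_le_card Finset.sdiff_subset
      omega
    obtain ⟨C, hC, hCc⟩ := hex
    obtain ⟨v0, hv0, rfl⟩ := mem_comps.1 hC
    obtain ⟨R', hR', K, w, hch, hK0, hw0, hor⟩ :=
      chain_exists (x + 1) (5 * r * (x + 1)) (comp G U v0) v0 (self_mem_comp hv0) comp_conn hCc
    have hKW : K 0 ⊆ U := by rw [hK0]; exact comp_subset _ _
    have hcl : ∀ u ∈ K 0, ∀ u' ∈ U, G.Adj u u' → u' ∈ K 0 := by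
      intro u hu u' hu' hadj
      rw [hK0] at hu ⊢
      exact comp_adj hu hu' hadj
    rcases hor with hRR | hbr
    · subst hRR
      obtain ⟨i, hi, hdisj⟩ := exists_avoid (X := X) (M := x + 1)
        (B := fun i => K (5 * r * i) \ K (5 * r * (i + 1))) (by
          have key : ∀ i < x + 1, ∀ j < x + 1, i < j →
              Disjoint (K (5 * r * i) \ K (5 * r * (i + 1)))
                (K (5 * r * j) \ K (5 * r * (j + 1))) := by
            intro i hi j hj hij
            rw [Finset.disjoint_left]
            intro y hy hy'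
            rw [Finset.mem_sdiff] at hy hy'
            have hle : 5 * r * (j + 1) ≤ 5 * r * (x + 1) := Nat.mul_le_mul_left _ hj
            have hle2 : 5 * r * (i + 1) ≤ 5 * r * j := Nat.mul_le_mul_left _ hij
            exact hy.2 (hch.anti hle2 (by linarith) hy'.1)
          intro i hi j hj hij
          rcases Nat.lt_or_gt_of_ne hij with h1 | h1
          · exact key i hi j hj h1
          · exact (key j hj i hi h1).symm) (by omega)
      have hle : 5 * r * (i + 1) ≤ 5 * r * (x + 1) := Nat.mul_le_mul_left _ hi
      set A := 5 * r * i with hA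
      have hAB : 5 * r * (i + 1) = A + 5 * r := by rw [hA]; ring
      rw [hAB] at hdisj hle
      have hout : ∀ y, y ∈ K A → y ∉ K (A + 5 * r) → y ∉ X := by
        intro y h1 h2 h3
        exact Finset.disjoint_left.1 hdisj (Finset.mem_sdiff.2 ⟨h1, h2⟩) h3
      have hU : Unary K w A (A + 5 * r) := by
        intro j hj1 hj2 u hu
        by_contra hcon
        rw [not_or] at hcon
        have huE : u ∈ (K j).erase (w j) := Finset.mem_erase.2 ⟨hcon.1, hu⟩
        have hD : comp G ((K j).erase (w j)) u ∈ comps G ((K j).erase (w j)) :=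
          mem_comps.2 ⟨u, huE, rfl⟩
        obtain ⟨z, hz, q, hq, hqm, hdz⟩ := hch.leaf hr hnl hKW hcl (i := j) (by omega) hD
        have hzK : z ∈ K j := Finset.mem_of_mem_erase (comp_subset _ _ hz)
        have hzn : z ∉ K (j + 1) := by
          intro hxK
          apply hcon.2
          rw [hch.cmp j (by omega)] at hxK ⊢
          rw [← comp_eq hxK, comp_eq hz]
          exact self_mem_comp huE
        have hzX : z ∉ X := hout z (hch.anti hj1 (by omega) hzK)
          (fun h => hzn (hch.anti (by omega) (by omega) h))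
        have := hdeg z (Finset.mem_sdiff.2 ⟨hKW (hch.anti (Nat.zero_le _) (by omega) hzK), hzX⟩)
        omega
      obtain ⟨i1, h1a, h1b, h1c⟩ := hch.exists_small hr hnl hKW hcl hle hU le_rfl (by omega)
      obtain ⟨i2, h2a, h2b, h2c⟩ := hch.exists_small hr hnl hKW hcl hle hU (b := A + 2 * r)
        (by omega) (by omega)
      have hp := hch.seg_pth (i2 - i1) i1 (by omega)
      rw [show i1 + (i2 - i1) = i2 by omega] at hp
      have hlast := hpth _ _ _ hp (by
        intro y hy
        rw [mem_seg] at hy
        obtain ⟨t, ht1, ht2, rfl⟩ := hy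
        have hK := hch.mem t (by omega)
        refine Finset.mem_sdiff.2 ⟨hKW (hch.anti (Nat.zero_le _) (by omega) hK), ?_⟩
        exact hout _ (hch.anti (by omega) (by omega) hK) (hch.notMem (by omega) (by omega)))
        (by rw [seg_length]; omega) (by rw [seg_length]; omega)
      omega
    · obtain ⟨D, hD1, hD2⟩ := exists_enum _ hbr
      obtain ⟨i, hi, hdisj⟩ := exists_avoid (X := X) (M := x + 1) (B := D)
        (fun i hi j hj hij => comps_disj (hD1 i hi) (hD1 j hj)
          (fun h => hij (hD2 i hi j hj h))) (by omega)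
      obtain ⟨z, hz, q, hq, hqm, hdz⟩ := hch.leaf hr hnl hKW hcl (i := R') le_rfl (hD1 i hi)
      have hzU : z ∈ U := by
        obtain ⟨a, ha, hDa⟩ := mem_comps.1 (hD1 i hi)
        rw [← hDa] at hz
        exact hKW (hch.anti (Nat.zero_le _) le_rfl
          (Finset.mem_of_mem_erase (comp_subset _ _ hz)))
      have := hdeg z (Finset.mem_sdiff.2 ⟨hzU, fun h => Finset.disjoint_left.1 hdisj hz h⟩)
      omega

end Pool.Agent.Helper14.LongCyc
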