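import Pool.Agent.Helper14.LongCyc.Chain

set_option linter.all false

namespace Pool.Agent.Helper14.LongCyc

variable {V : Type*} {G : SimpleGraph V}

open Classical in
/-- upward degree of `v i` along the chain -/
noncomputable def upd (G : SimpleGraph V) (v : ℕ → V) (i : ℕ) : ℕ :=
  ((Finset.range i).filter fun j => G.Adj (v i) (v j)).card

open Classical in
/-- downward degree of `v i` along the chain -/
noncomputable def dnd (G : SimpleGraph V) (v : ℕ → V) (r i : ℕ) : ℕ :=
  ((Finset.Ioc i (i + (r - 2))).filter fun j => G.Adj (v i) (v j)).card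

section chain

variable [DecidableEq V] {R : ℕ} {K : ℕ → Finset V} {v : ℕ → V}

/-- the block `[A, B)` has no side components -/
def Unary (K : ℕ → Finset V) (v : ℕ → V) (A B : ℕ) : Prop :=
  ∀ i, A ≤ i → i < B → ∀ u ∈ K i, u = v i ∨ u ∈ K (i + 1)

omit [DecidableEq V] in
theorem Unary.push {A B i : ℕ} (hU : Unary K v A B) (hA : A ≤ i) {u : V} (hu : u ∈ K (i + 1)) :
    ∀ t, i + 1 + t ≤ B → (∃ j, i < j ∧ j < i + 1 + t ∧ u = v j) ∨ u ∈ K (i + 1 + t) := by
  intro t
  induction t with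
  | zero => intro _; exact Or.inr hu
  | succ t ih =>
    intro ht
    rcases ih (by omega) with ⟨j, h1, h2, h3⟩ | h
    · exact Or.inl ⟨j, h1, by omega, h3⟩
    · rcases hU (i + 1 + t) (by omega) (by omega) u h with h1 | h1
      · exact Or.inl ⟨i + 1 + t, by omega, by omega, h1⟩
      · exact Or.inr h1

theorem ChainData.dg_le (h : ChainData G R K v) {W : Finset V} {r : ℕ} (hr : 3 ≤ r)
    (hW : NoLong G r W) (hKW : K 0 ⊆ W)
    (hcl : ∀ u ∈ K 0, ∀ u' ∈ W, G.Adj u u' → u' ∈ K 0) {A B : ℕ} (hB : B ≤ R)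
    (hU : Unary K v A B) {i : ℕ} (hA : A ≤ i) (hi : i + (r - 1) ≤ B) :
    dg G W (v i) ≤ upd G v i + dnd G v r i := by
  classical
  have hsub : (W.filter fun u => G.Adj (v i) u) ⊆
      ((Finset.range i).filter fun j => G.Adj (v i) (v j)).image v ∪
      ((Finset.Ioc i (i + (r - 2))).filter fun j => G.Adj (v i) (v j)).image v := by
    intro u hu
    rw [Finset.mem_filter] at hu
    obtain ⟨huW, hau⟩ := hu
    rw [Finset.mem_union, Finset.mem_image, Finset.mem_image]
    rcases h.closed hcl i (by omega) (v i) (h.mem i (by omega)) u huW hau with h1 | ⟨j, hj, rfl⟩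
    · right
      rcases hU i hA (by omega) u h1 with rfl | h2
      · exact absurd rfl hau.ne
      · rcases hU.push hA h2 (r - 2) (by omega) with ⟨j, h3, h4, rfl⟩ | h3
        · refine ⟨j, ?_, rfl⟩
          rw [Finset.mem_filter, Finset.mem_Ioc]
          exact ⟨⟨h3, by omega⟩, hau⟩
        · exfalso
          have := h.reach hr hW hKW (i := i + 1 + (r - 2)) (j := i) (by omega) (by omega) h3
            hau.symm
          omega
    · left
      refine ⟨j, ?_, rfl⟩
      rw [Finset.mem_filter, Finset.mem_range]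
      exact ⟨hj, hau⟩
  unfold dg upd dnd
  calc _ ≤ _ := Finset.card_le_card hsub
    _ ≤ _ := Finset.card_union_le _ _
    _ ≤ _ := Nat.add_le_add Finset.card_image_le Finset.card_image_le

theorem ChainData.upd_le (h : ChainData G R K v) {W : Finset V} {r : ℕ} (hr : 3 ≤ r)
    (hW : NoLong G r W) (hKW : K 0 ⊆ W) {i : ℕ} (hi : i ≤ R) : upd G v i ≤ r - 2 := by
  classical
  unfold upd
  have hsub : ((Finset.range i).filter fun j => G.Adj (v i) (v j)) ⊆
      Finset.Ico (i - (r - 2)) i := by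
    intro j hj
    rw [Finset.mem_filter, Finset.mem_range] at hj
    have := h.reach hr hW hKW hj.1 hi (h.mem i hi) hj.2
    rw [Finset.mem_Ico]
    omega
  calc _ ≤ _ := Finset.card_le_card hsub
    _ ≤ r - 2 := by rw [Nat.card_Ico]; omega

theorem dnd_le (G : SimpleGraph V) (v : ℕ → V) (r i : ℕ) : dnd G v r i ≤ r - 2 := by
  classical
  unfold dnd
  calc _ ≤ _ := Finset.card_filter_le _ _
    _ = r - 2 := by rw [Nat.card_Ioc]; omega

theorem ChainData.updn (h : ChainData G R K v) {W : Finset V} {r : ℕ} (hr : 3 ≤ r)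
    (hW : NoLong G r W) (hKW : K 0 ⊆ W) {i : ℕ} (hi : i + (r - 1) ≤ R) :
    upd G v (i + 1) + dnd G v r i ≤ r - 1 := by
  classical
  set Us := (Finset.range (i + 1)).filter fun j => G.Adj (v (i + 1)) (v j) with hUs
  set Ds := (Finset.Ioc i (i + (r - 2))).filter fun j => G.Adj (v i) (v j) with hDs
  have hUn : i ∈ Us := by
    rw [hUs, Finset.mem_filter, Finset.mem_range]
    exact ⟨by omega, (h.adj i (by omega)).symm⟩
  have hDn : i + 1 ∈ Ds := by
    rw [hDs, Finset.mem_filter, Finset.mem_Ioc]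
    exact ⟨⟨by omega, by omega⟩, h.adj i (by omega)⟩
  set j0 := Us.min' ⟨i, hUn⟩ with hj0
  set j1 := Ds.max' ⟨i + 1, hDn⟩ with hj1
  have hj0m : j0 ∈ Us := Finset.min'_mem _ _
  have hj1m : j1 ∈ Ds := Finset.max'_mem _ _
  have hU : upd G v (i + 1) ≤ i + 1 - j0 := by
    have : Us ⊆ Finset.Ico j0 (i + 1) := by
      intro j hj
      rw [Finset.mem_Ico]
      refine ⟨Finset.min'_le _ _ hj, ?_⟩
      rw [hUs, Finset.mem_filter, Finset.mem_range] at hj
      exact hj.1
    calc upd G v (i + 1) = Us.card := by unfold upd; rfl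
      _ ≤ _ := Finset.card_le_card this
      _ = _ := by rw [Nat.card_Ico]
  have hD : dnd G v r i ≤ j1 - i := by
    have : Ds ⊆ Finset.Ioc i j1 := by
      intro j hj
      rw [Finset.mem_Ioc]
      refine ⟨?_, Finset.le_max' _ _ hj⟩
      rw [hDs, Finset.mem_filter, Finset.mem_Ioc] at hj
      exact hj.1.1
    calc dnd G v r i = Ds.card := by unfold dnd; rfl
      _ ≤ _ := Finset.card_le_card this
      _ = _ := by rw [Nat.card_Ioc]
  rw [hUs, Finset.mem_filter, Finset.mem_range] at hj0m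
  rw [hDs, Finset.mem_filter, Finset.mem_Ioc] at hj1m
  have hup := h.upd_le hr hW hKW (i := i + 1) (by omega)
  have hdn := dnd_le G v r i
  rcases Nat.lt_or_ge j0 i with hlt | hge
  · rcases Nat.lt_or_ge (i + 1) j1 with hlt' | hge'
    · -- long cycle
      have p1 := h.seg_pth (i - j0) j0 (by omega)
      have p2 := (h.seg_pth (j1 - (i + 1)) (i + 1) (by omega)).reverse
      rw [show j0 + (i - j0) = i by omega] at p1
      rw [show i + 1 + (j1 - (i + 1)) = j1 by omega] at p2
      have p3 := p1.append p2 hj1m.2 (by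
        intro x hx hx'
        rw [List.mem_reverse, mem_seg] at hx'
        rw [mem_seg] at hx
        obtain ⟨a, ha1, ha2, rfl⟩ := hx
        obtain ⟨b, hb1, hb2, hb3⟩ := hx'
        have := h.inj (by omega) (by omega) hb3
        omega)
      have hlen : (seg v j0 (i - j0) ++ (seg v (i + 1) (j1 - (i + 1))).reverse).length =
          j1 - j0 + 1 := by
        rw [List.length_append, List.length_reverse, seg_length, seg_length]; omega
      have := hW _ ⟨by rw [hlen]; omega, _, _, p3, hj0m.2⟩ (by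
        intro x hx
        rw [List.mem_append, List.mem_reverse, mem_seg, mem_seg] at hx
        rcases hx with ⟨a, ha1, ha2, rfl⟩ | ⟨a, ha1, ha2, rfl⟩
        · exact hKW (h.anti (Nat.zero_le a) (by omega) (h.mem a (by omega)))
        · exact hKW (h.anti (Nat.zero_le a) (by omega) (h.mem a (by omega))))
      omega
    · omega
  · omega

/-- sum lemma -/
theorem ChainData.sum_le (h : ChainData G R K v) {W : Finset V} {r : ℕ} (hr : 3 ≤ r)
    (hW : NoLong G r W) (hKW : K 0 ⊆ W)
    (hcl : ∀ u ∈ K 0, ∀ u' ∈ W, G.Adj u u' → u' ∈ K 0) {A B : ℕ} (hB : B ≤ R)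
    (hU : Unary K v A B) {b : ℕ} (hA : A ≤ b) : ∀ n, b + n + (r - 1) ≤ B →
    ∑ t ∈ Finset.range (n + 1), dg G W (v (b + t)) ≤
      upd G v b + n * (r - 1) + dnd G v r (b + n) := by
  intro n
  induction n with
  | zero =>
    intro hn
    simp only [zero_add, Finset.range_one, Finset.sum_singleton, add_zero, zero_mul]
    exact h.dg_le hr hW hKW hcl hB hU hA (by omega)
  | succ n ih =>
    intro hn
    rw [Finset.sum_range_succ]
    have h1 := ih (by omega)
    have h2 := h.dg_le hr hW hKW hcl hB hU (i := b + (n + 1)) (by omega) (by omega)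
    have h3 := h.updn hr hW hKW (i := b + n) (by omega)
    rw [show b + n + 1 = b + (n + 1) by ring] at h3
    rw [Nat.succ_mul]
    omega

theorem ChainData.exists_small (h : ChainData G R K v) {W : Finset V} {r : ℕ} (hr : 3 ≤ r)
    (hW : NoLong G r W) (hKW : K 0 ⊆ W)
    (hcl : ∀ u ∈ K 0, ∀ u' ∈ W, G.Adj u u' → u' ∈ K 0) {A B : ℕ} (hB : B ≤ R)
    (hU : Unary K v A B) {b : ℕ} (hA : A ≤ b) (hb : b + 2 * r ≤ B) :
    ∃ i, b ≤ i ∧ i < b + r ∧ dg G W (v i) ≤ r - 1 := by
  by_contra hcon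
  push Not at hcon
  have h1 := h.sum_le hr hW hKW hcl hB hU hA (r - 3) (by omega)
  have h2 := h.upd_le hr hW hKW (i := b) (by omega)
  have h3 := dnd_le G v r (b + (r - 3))
  have h4 : ∑ t ∈ Finset.range (r - 3 + 1), r ≤
      ∑ t ∈ Finset.range (r - 3 + 1), dg G W (v (b + t)) := by
    refine Finset.sum_le_sum fun t ht => ?_
    rw [Finset.mem_range] at ht
    have := hcon (b + t) (by omega) (by omega)
    omega
  rw [Finset.sum_const, Finset.card_range, smul_eq_mul] at h4
  obtain ⟨s, rfl⟩ : ∃ s, r = s + 3 := ⟨r - 3, by omega⟩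
  have e1 : s + 3 - 3 = s := by omega
  have e2 : s + 3 - 2 = s + 1 := by omega
  have e3 : s + 3 - 1 = s + 2 := by omega
  rw [e1, e3] at h1
  rw [e1, e2] at h3
  rw [e2] at h2
  rw [e1] at h4
  nlinarith

/-- end lemma: a vertex of small degree attached in every window of length `2 r` -/
theorem ChainData.exists_end (h : ChainData G R K v) {W : Finset V} {r : ℕ} (hr : 3 ≤ r)
    (hW : NoLong G r W) (hKW : K 0 ⊆ W)
    (hcl : ∀ u ∈ K 0, ∀ u' ∈ W, G.Adj u u' → u' ∈ K 0) {A : ℕ} (hA : A + 2 * r ≤ R) :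
    ∃ i, A ≤ i ∧ i < A + 2 * r ∧ ∃ z q, Pth G z (v i) q ∧
      (∀ x ∈ q, x ∈ K i ∧ x ∉ K (i + 1)) ∧ dg G W z ≤ r - 1 := by
  by_cases hU : Unary K v A (A + 2 * r)
  · obtain ⟨i, h1, h2, h3⟩ := h.exists_small hr hW hKW hcl hA hU le_rfl le_rfl
    refine ⟨i, h1, by omega, v i, [v i], Pth.singleton _, ?_, h3⟩
    intro x hx
    rw [List.mem_singleton] at hx
    subst hx
    exact ⟨h.mem i (by omega), h.notMem (by omega) (by omega)⟩
  · unfold Unary at hU
    push Not at hU
    obtain ⟨i, h1, h2, u, hu, huv, huK⟩ := hU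
    have huE : u ∈ (K i).erase (v i) := Finset.mem_erase.2 ⟨huv, hu⟩
    have hD : comp G ((K i).erase (v i)) u ∈ comps G ((K i).erase (v i)) :=
      mem_comps.2 ⟨u, huE, rfl⟩
    obtain ⟨z, hz, q, hq, hqm, hdz⟩ := h.leaf hr hW hKW hcl (i := i) (by omega) hD
    refine ⟨i, h1, h2, z, q, hq, ?_, by omega⟩
    intro x hx
    rcases hqm x hx with rfl | hxD
    · exact ⟨h.mem i (by omega), h.notMem (by omega) (by omega)⟩
    · refine ⟨Finset.mem_of_mem_erase (comp_subset _ _ hxD), ?_⟩
      intro hxK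
      apply huK
      rw [h.cmp i (by omega)] at hxK ⊢
      rw [← comp_eq hxK, comp_eq hxD]
      exact self_mem_comp huE

/-- tall piece lemma -/
theorem ChainData.tall (h : ChainData G R K v) {W : Finset V} {r : ℕ} (hr : 3 ≤ r)
    (hW : NoLong G r W) (hKW : K 0 ⊆ W)
    (hcl : ∀ u ∈ K 0, ∀ u' ∈ W, G.Adj u u' → u' ∈ K 0) {A : ℕ} (hA : A + 5 * r ≤ R) :
    ∃ z z' P, Pth G z z' P ∧ r - 1 ≤ P.length ∧ (∀ x ∈ P, x ∈ K A ∧ x ∉ K (A + 5 * r)) ∧
      dg G W z ≤ r - 1 ∧ dg G W z' ≤ r - 1 := by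
  obtain ⟨i, hi1, hi2, z, q, hq, hqm, hz⟩ := h.exists_end hr hW hKW hcl (A := A) (by omega)
  obtain ⟨j, hj1, hj2, z', q', hq', hqm', hz'⟩ :=
    h.exists_end hr hW hKW hcl (A := A + 3 * r) (by omega)
  have hmid := h.seg_pth (j - i - 2) (i + 1) (by omega)
  rw [show i + 1 + (j - i - 2) = j - 1 by omega] at hmid
  have hK1 : ∀ x ∈ seg v (i + 1) (j - i - 2), x ∈ K (i + 1) ∧ x ∉ K j := by
    intro x hx
    rw [mem_seg] at hx
    obtain ⟨t, ht1, ht2, rfl⟩ := hx
    exact ⟨h.anti ht1 (by omega) (h.mem t (by omega)), h.notMem (by omega) (by omega)⟩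
  have p1 := hq.append hmid (h.adj i (by omega)) (fun x hx hx' => (hqm x hx).2 (hK1 x hx').1)
  have p2 := p1.append hq'.reverse (by
      have := h.adj (j - 1) (by omega)
      rwa [show j - 1 + 1 = j by omega] at this) (by
    intro x hx hx'
    rw [List.mem_reverse] at hx'
    rw [List.mem_append] at hx
    rcases hx with hx | hx
    · exact (hqm x hx).2 (h.anti (by omega) (by omega) (hqm' x hx').1)
    · exact (hK1 x hx).2 (hqm' x hx').1)
  refine ⟨z, z', _, p2, ?_, ?_, hz, hz'⟩
  · rw [List.length_append, List.length_append, seg_length]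
    omega
  · intro x hx
    rw [List.mem_append, List.mem_append, List.mem_reverse] at hx
    rcases hx with (hx | hx) | hx
    · exact ⟨h.anti hi1 (by omega) (hqm x hx).1,
        fun hh => (hqm x hx).2 (h.anti (by omega) (by omega) hh)⟩
    · exact ⟨h.anti (by omega) (by omega) (hK1 x hx).1,
        fun hh => (hK1 x hx).2 (h.anti (by omega) (by omega) hh)⟩
    · exact ⟨h.anti (by omega) (by omega) (hqm' x hx).1,
        fun hh => (hqm' x hx).2 (h.anti (by omega) (by omega) hh)⟩

end chain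

end Pool.Agent.Helper14.LongCyc
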