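import Pool.Agent.Helper14.LongCyc.Glue
import Pool.Agent.Helper14.LongCyc.Piece
import Pool.Agent.Helper14.LongCyc.Unary

set_option linter.all false

namespace Pool.Agent.Helper14.LongCyc

universe u

variable {V : Type u} {G : SimpleGraph V}

theorem exists_enum {α : Type*} [Inhabited α] (s : Finset α) {M : ℕ} (hM : M ≤ s.card) :
    ∃ g : ℕ → α, (∀ i < M, g i ∈ s) ∧ ∀ i < M, ∀ j < M, g i = g j → i = j := by
  classical
  have hl : s.toList.length = s.card := Finset.length_toList s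
  refine ⟨fun i => s.toList.getD i default, ?_, ?_⟩
  · intro i hi
    have : i < s.toList.length := by omega
    simp only
    rw [List.getD_eq_getElem _ _ this, ← Finset.mem_toList]
    exact List.getElem_mem _
  · intro i hi j hj hij
    have h1 : i < s.toList.length := by omega
    have h2 : j < s.toList.length := by omega
    simp only at hij
    rw [List.getD_eq_getElem _ _ h1, List.getD_eq_getElem _ _ h2] at hij
    exact (List.Nodup.getElem_inj_iff s.nodup_toList).1 hij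

theorem pigeon {β : Type*} [DecidableEq β] (t : Finset β) (f : ℕ → β) {M T : ℕ}
    (hf : ∀ i < M, f i ∈ t) (hne : t.Nonempty) (hM : t.card * T ≤ M) :
    ∃ y ∈ t, ∃ g : ℕ → ℕ, (∀ i < T, g i < M ∧ f (g i) = y) ∧
      ∀ i < T, ∀ j < T, g i = g j → i = j := by
  obtain ⟨y, hy, hc⟩ := Finset.exists_le_card_fiber_of_mul_le_card_of_maps_to
    (s := Finset.range M) (t := t) (f := f) (n := T)
    (fun i hi => hf i (Finset.mem_range.1 hi)) hne (by rw [Finset.card_range]; exact hM)
  obtain ⟨g, h1, h2⟩ := exists_enum _ hc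
  refine ⟨y, hy, g, fun i hi => ?_, h2⟩
  have := h1 i hi
  rw [Finset.mem_filter, Finset.mem_range] at this
  exact this

/-- guaranteed length of a piece with degree parameter `d` -/
def Lf (d : ℕ) : ℕ := if d = 0 then 1 else max d 2

/-- the numerical condition -/
def Num (k r F : ℕ) : Prop := ∀ d ≤ r - 1, ∃ l, 1 ≤ l ∧ k * l + d ≤ F ∧ r ≤ l * (Lf d + 1)

theorem packs_of_pieces [DecidableEq V] {k r F x' M : ℕ} (hr : 3 ≤ r) (hN : Num k r F)
    {U X : Finset V} (hXU : X ⊆ U) (hX : X.card ≤ x') {e f : ℕ → V} {Q : ℕ → List V} {D : ℕ → ℕ}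
    (hQ : ∀ i < M, Pth G (e i) (f i) (Q i) ∧ (∀ x ∈ Q i, x ∈ U ∧ x ∉ X) ∧ D i ≤ r - 1 ∧
      Lf (D i) ≤ (Q i).length ∧ F ≤ dg G X (e i) + D i ∧ F ≤ dg G X (f i) + D i)
    (hd : ∀ i < M, ∀ j < M, i ≠ j → ∀ x ∈ Q i, x ∉ Q j)
    (hM : r * (2 ^ x' * 2 ^ x') * (2 * F) ≤ M) : Packs G r k U := by
  classical
  obtain ⟨⟨d, S1, S2⟩, hy, g, hg, hginj⟩ := pigeon
    (Finset.range r ×ˢ (X.powerset ×ˢ X.powerset))
    (fun i => (D i, X.filter (fun u => G.Adj (e i) u), X.filter (fun u => G.Adj (f i) u)))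
    (M := M) (T := 2 * F)
    (by
      intro i hi
      have := (hQ i hi).2.2.1
      simp only [Finset.mem_product, Finset.mem_range, Finset.mem_powerset]
      exact ⟨by omega, Finset.filter_subset _ _, Finset.filter_subset _ _⟩)
    ⟨(0, ∅, ∅), by simp; omega⟩
    (by
      refine le_trans (Nat.mul_le_mul_right _ ?_) hM
      rw [Finset.card_product, Finset.card_product, Finset.card_range, Finset.card_powerset]
      have h2 : 2 ^ X.card ≤ 2 ^ x' := Nat.pow_le_pow_right (by norm_num) hX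
      exact Nat.mul_le_mul_left _ (Nat.mul_le_mul h2 h2))
  simp only [Finset.mem_product, Finset.mem_range, Finset.mem_powerset] at hy
  obtain ⟨l, hl1, hl2, hl3⟩ := hN d (by omega)
  have hfib : ∀ i < 2 * F, D (g i) = d ∧ (X.filter (fun u => G.Adj (e (g i)) u)) = S1 ∧
      (X.filter (fun u => G.Adj (f (g i)) u)) = S2 := by
    intro i hi
    have := (hg i hi).2
    simp only [Prod.mk.injEq] at this
    exact this
  have hkl : k * l ≤ F := by omega
  rcases Nat.eq_zero_or_pos F with hF0 | hFpos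
  · have : k * l = 0 := by omega
    have : k = 0 := by
      rcases Nat.mul_eq_zero.1 this with h | h
      · exact h
      · omega
    subst this
    exact Packs.zero
  have h0 := hfib 0 (by omega)
  have hq0 := hQ (g 0) (hg 0 (by omega)).1
  have hS1c : k * l ≤ S1.card := by
    have : dg G X (e (g 0)) = S1.card := by rw [← h0.2.1]; rfl
    omega
  have hS2c : k * l ≤ S2.card := by
    have : dg G X (f (g 0)) = S2.card := by rw [← h0.2.2]; rfl
    omega
  refine assemble (m := Lf d) (l := l) hr hl1 hl3 hXU hy.2.1 hy.2.2 hS1c hS2c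
    (Q := fun i => Q (g i)) (e := fun i => e (g i)) (f := fun i => f (g i)) ?_ ?_
  · intro i hi
    have hi' : i < 2 * F := by omega
    have hq := hQ (g i) (hg i hi').1
    have hf' := hfib i hi'
    refine ⟨hq.1, ?_, hq.2.1, ?_, ?_⟩
    · rw [← hf'.1]; exact hq.2.2.2.1
    · intro x hx
      rw [← hf'.2.1, Finset.mem_filter] at hx
      exact hx.2.symm
    · intro x hx
      rw [← hf'.2.2, Finset.mem_filter] at hx
      exact hx.2.symm
  · intro i hi j hj hij
    exact hd _ (hg i (by omega)).1 _ (hg j (by omega)).1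
      (fun h => hij (hginj i (by omega) j (by omega) h))

theorem dg_split [DecidableEq V] {U X D : Finset V} {a : V}
    (h : ∀ u ∈ U, G.Adj a u → u ∈ X ∨ u ∈ D) : dg G U a ≤ dg G X a + dg G D a := by
  classical
  unfold dg
  refine le_trans (Finset.card_le_card (t := X.filter (fun u => G.Adj a u) ∪
    D.filter (fun u => G.Adj a u)) ?_) (Finset.card_union_le _ _)
  intro u hu
  rw [Finset.mem_filter] at hu
  rw [Finset.mem_union, Finset.mem_filter, Finset.mem_filter]
  rcases h u hu.1 hu.2 with h | h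
  · exact Or.inl ⟨h, hu.2⟩
  · exact Or.inr ⟨h, hu.2⟩

/-- many closed sets relative to a small set -/
theorem packs_of_closed [DecidableEq V] {k r F x' : ℕ} (hr : 3 ≤ r) (hN : Num k r F)
    {U X Y : Finset V} (hXU : X ⊆ U) (hYU : Y ⊆ U) (hXY : (X ∪ Y).card ≤ x')
    (hnl : NoLong G r (U \ X)) (hdeg : ∀ v ∈ U \ X, F ≤ dg G U v)
    (𝒟 : Finset (Finset V)) (hne : ∀ D ∈ 𝒟, D.Nonempty) (hsub : ∀ D ∈ 𝒟, D ⊆ U \ (X ∪ Y))
    (hcl : ∀ D ∈ 𝒟, ∀ u ∈ D, ∀ u' ∈ U \ X, G.Adj u u' → u' ∈ D ∨ u' ∈ Y)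
    (hdj : ∀ D ∈ 𝒟, ∀ D' ∈ 𝒟, D ≠ D' → Disjoint D D')
    (hM : r * (2 ^ x' * 2 ^ x') * (2 * F) ≤ 𝒟.card) : Packs G r k U := by
  classical
  obtain ⟨D, hD1, hD2⟩ := exists_enum 𝒟 hM
  set M' := r * (2 ^ x' * 2 ^ x') * (2 * F) with hM'
  have hpiece : ∀ i, i < M' → ∃ a b Q d, Pth G a b Q ∧ (∀ x ∈ Q, x ∈ D i) ∧ dg G (D i) a ≤ d ∧
      dg G (D i) b ≤ d ∧ (d = 0 ∨ (1 ≤ d ∧ d ≤ r - 2 ∧ d ≤ Q.length ∧ 2 ≤ Q.length)) := by
    intro i hi
    refine piece hr (hnl.mono ?_) (hne _ (hD1 i hi))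
    intro x hx
    have := hsub _ (hD1 i hi) hx
    rw [Finset.mem_sdiff, Finset.mem_union, not_or] at this
    exact Finset.mem_sdiff.2 ⟨this.1, this.2.1⟩
  rcases Nat.eq_zero_or_pos F with hF0 | hFpos
  · have hk0 : k = 0 := by
      obtain ⟨l, h1, h2, _⟩ := hN 0 (Nat.zero_le _)
      have : k * l = 0 := by omega
      rcases Nat.mul_eq_zero.1 this with h | h
      · exact h
      · omega
    subst hk0
    exact Packs.zero
  have hMpos : 0 < M' := by
    rw [hM']
    have : 0 < r := by omega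
    positivity
  have hVne : Nonempty V := by
    obtain ⟨a, _⟩ := hpiece 0 hMpos
    exact ⟨a⟩
  choose! a b Q d h using hpiece
  refine packs_of_pieces hr hN (X := X ∪ Y) (Finset.union_subset hXU hYU) hXY (M := M')
    (e := a) (f := b) (Q := Q) (D := d) ?_ ?_ le_rfl
  · intro i hi
    obtain ⟨h1, h2, h3, h4, h5⟩ := h i hi
    have hDi := hD1 i hi
    have hin : ∀ x ∈ Q i, x ∈ U ∧ x ∉ X ∪ Y := fun x hx =>
      Finset.mem_sdiff.1 (hsub _ hDi (h2 x hx))
    have hsp : ∀ w, w ∈ D i → F ≤ dg G (X ∪ Y) w + dg G (D i) w := by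
      intro w hw
      have hwU := Finset.mem_sdiff.1 (hsub _ hDi hw)
      rw [Finset.mem_union, not_or] at hwU
      refine le_trans (hdeg w (Finset.mem_sdiff.2 ⟨hwU.1, hwU.2.1⟩)) (dg_split ?_)
      intro u hu hau
      by_cases huX : u ∈ X
      · exact Or.inl (Finset.mem_union_left _ huX)
      · rcases hcl _ hDi w hw u (Finset.mem_sdiff.2 ⟨hu, huX⟩) hau with h | h
        · exact Or.inr h
        · exact Or.inl (Finset.mem_union_right _ h)
    refine ⟨h1, hin, by omega, ?_, ?_, ?_⟩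
    · unfold Lf
      have := h1.length_pos
      split_ifs with h0
      · exact this
      · rcases h5 with h5 | h5
        · exact absurd h5 h0
        · exact max_le h5.2.2.1 h5.2.2.2
    · have := hsp _ (h2 _ h1.head_mem)
      omega
    · have := hsp _ (h2 _ h1.last_mem)
      omega
  · intro i hi j hj hij x hx hx'
    have := hdj _ (hD1 i hi) _ (hD1 j hj) (fun hh => hij (hD2 i hi j hj hh))
    exact Finset.disjoint_left.1 this ((h i hi).2.1 x hx) ((h j hj).2.1 x hx')

end Pool.Agent.Helper14.LongCyc
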