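import Pool.Agent.Helper14.LongCyc.Region

set_option linter.all false

namespace Pool.Agent.Helper14.LongCyc

variable {V : Type*} {G : SimpleGraph V}

theorem Pth.pre {a b c : V} {s t : List V} (h : Pth G a b (s ++ c :: t)) :
    Pth G a c (s ++ [c]) := by
  have e : s ++ c :: t = (s ++ [c]) ++ t := by simp
  refine ⟨?_, ?_, ?_, by simp⟩
  · have := h.1
    rw [e] at this
    exact (List.nodup_append.1 this).1
  · have := h.2.1
    rw [e] at this
    exact this.left_of_append
  · have := h.2.2.1
    cases s <;> simpa using this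

theorem Pth.suf {a b c : V} {s t : List V} (h : Pth G a b (s ++ c :: t)) :
    Pth G c b (c :: t) := by
  refine ⟨(List.nodup_append.1 h.1).2.1, h.2.1.right_of_append, by simp, ?_⟩
  have := h.2.2.2
  rw [List.getLast?_append] at this
  simp only [List.getLast?_cons, Option.some_or] at this ⊢
  exact this

/-- the data of a depth first chain -/
structure ChainData [DecidableEq V] (G : SimpleGraph V) (R : ℕ) (K : ℕ → Finset V) (v : ℕ → V) :
    Prop where
  mem : ∀ i ≤ R, v i ∈ K i
  conn : ∀ i ≤ R, Conn G (K i)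
  adj : ∀ i < R, G.Adj (v i) (v (i + 1))
  next : ∀ i < R, v (i + 1) ∈ (K i).erase (v i)
  cmp : ∀ i < R, K (i + 1) = comp G ((K i).erase (v i)) (v (i + 1))

/-- size needed for a chain of length `R` or `M` components -/
def chN (M : ℕ) : ℕ → ℕ
  | 0 => 1
  | R + 1 => M * chN M R + 2

theorem chain_exists [DecidableEq V] (M : ℕ) : ∀ (R : ℕ) (C : Finset V) (v : V), v ∈ C →
    Conn G C → chN M R ≤ C.card → ∃ R' ≤ R, ∃ (K : ℕ → Finset V) (w : ℕ → V),
      ChainData G R' K w ∧ K 0 = C ∧ w 0 = v ∧
        (R' = R ∨ M ≤ (comps G ((K R').erase (w R'))).card) := by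
  intro R
  induction R with
  | zero =>
    intro C v hv hC _
    refine ⟨0, le_rfl, fun _ => C, fun _ => v, ⟨fun _ _ => hv, fun _ _ => hC, ?_, ?_, ?_⟩,
      rfl, rfl, Or.inl rfl⟩
    all_goals intro i hi; omega
  | succ R ih =>
    intro C v hv hC hcard
    by_cases hM : M ≤ (comps G (C.erase v)).card
    · refine ⟨0, Nat.zero_le _, fun _ => C, fun _ => v, ⟨fun _ _ => hv, fun _ _ => hC, ?_, ?_, ?_⟩,
        rfl, rfl, Or.inr hM⟩
      all_goals intro i hi; omega
    · push Not at hM
      have hex : ∃ D ∈ comps G (C.erase v), chN M R ≤ D.card := by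
        by_contra hcon
        push Not at hcon
        have h1 := comps_card hcon hM
        have h2 : (C.erase v).card = C.card - 1 := Finset.card_erase_of_mem hv
        simp only [chN] at hcard
        omega
      obtain ⟨D, hD, hDc⟩ := hex
      obtain ⟨w, hwD, hvw⟩ := comp_nbr hC hv hD
      obtain ⟨a, ha, hDa⟩ := mem_comps.1 hD
      have hDw : D = comp G (C.erase v) w := by
        rw [← hDa] at hwD ⊢
        exact (comp_eq hwD).symm
      have hDconn : Conn G D := hDa ▸ comp_conn
      obtain ⟨R', hR', K, w', hch, hK0, hw0, hor⟩ := ih D w hwD hDconn hDc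
      refine ⟨R' + 1, by omega, fun i => Nat.casesOn i C K, fun i => Nat.casesOn i v w',
        ⟨?_, ?_, ?_, ?_, ?_⟩, rfl, rfl, ?_⟩
      · intro i hi
        cases i with
        | zero => exact hv
        | succ i => exact hch.mem i (by omega)
      · intro i hi
        cases i with
        | zero => exact hC
        | succ i => exact hch.conn i (by omega)
      · intro i hi
        cases i with
        | zero => show G.Adj v (w' 0); rw [hw0]; exact hvw
        | succ i => exact hch.adj i (by omega)
      · intro i hi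
        cases i with
        | zero =>
          show w' 0 ∈ C.erase v
          rw [hw0]
          have h5 : w ∈ comp G (C.erase v) w := by rw [← hDw]; exact hwD
          exact comp_subset _ _ h5
        | succ i => exact hch.next i (by omega)
      · intro i hi
        cases i with
        | zero =>
          show K 0 = comp G (C.erase v) (w' 0)
          rw [hw0, hK0]; exact hDw
        | succ i => exact hch.cmp i (by omega)
      · rcases hor with h | h
        · left; omega
        · right; exact h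

section chain

variable [DecidableEq V] {R : ℕ} {K : ℕ → Finset V} {v : ℕ → V}

theorem ChainData.sub (h : ChainData G R K v) {i : ℕ} (hi : i < R) :
    K (i + 1) ⊆ (K i).erase (v i) := by
  rw [h.cmp i hi]; exact comp_subset _ _

theorem ChainData.anti (h : ChainData G R K v) {i j : ℕ} (hij : i ≤ j) (hj : j ≤ R) :
    K j ⊆ K i := by
  induction j with
  | zero => have : i = 0 := by omega
            subst this; exact Finset.Subset.refl _
  | succ j ih =>
    rcases Nat.lt_or_ge j i with h1 | h1
    · have : i = j + 1 := by omega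
      subst this; exact Finset.Subset.refl _
    · exact ((h.sub (by omega)).trans (Finset.erase_subset _ _)).trans (ih h1 (by omega))

theorem ChainData.notMem (h : ChainData G R K v) {i j : ℕ} (hij : i < j) (hj : j ≤ R) :
    v i ∉ K j := by
  intro hm
  have h1 := h.anti (i := i + 1) hij hj hm
  have h2 := h.sub (i := i) (by omega) h1
  rw [Finset.mem_erase] at h2
  exact h2.1 rfl

theorem ChainData.inj (h : ChainData G R K v) {i j : ℕ} (hi : i ≤ R) (hj : j ≤ R)
    (he : v i = v j) : i = j := by
  rcases Nat.lt_trichotomy i j with h1 | h1 | h1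
  · exact absurd (h.mem j hj) (he ▸ h.notMem h1 hj)
  · exact h1
  · exact absurd (h.mem i hi) (he ▸ h.notMem h1 hi)

/-- segment `v i, …, v (i+n)` -/
def seg (v : ℕ → V) (i n : ℕ) : List V := (List.range' i (n + 1)).map v

omit [DecidableEq V] in
theorem mem_seg {x : V} {i n : ℕ} : x ∈ seg v i n ↔ ∃ j, i ≤ j ∧ j ≤ i + n ∧ x = v j := by
  unfold seg
  rw [List.mem_map]
  constructor
  · rintro ⟨j, hj, rfl⟩
    rw [List.mem_range'_1] at hj
    exact ⟨j, hj.1, by omega, rfl⟩
  · rintro ⟨j, h1, h2, rfl⟩
    exact ⟨j, by rw [List.mem_range'_1]; omega, rfl⟩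

omit [DecidableEq V] in
theorem seg_length {i n : ℕ} : (seg v i n).length = n + 1 := by simp [seg]

theorem ChainData.seg_pth (h : ChainData G R K v) : ∀ (n i : ℕ), i + n ≤ R →
    Pth G (v i) (v (i + n)) (seg v i n) := by
  intro n
  induction n with
  | zero => intro i _; simpa [seg] using Pth.singleton (v i)
  | succ n ih =>
    intro i hi
    have h1 := ih (i + 1) (by omega)
    have e : seg v i (n + 1) = v i :: seg v (i + 1) n := by
      simp only [seg, List.range'_succ, List.map_cons]
    rw [e, show i + (n + 1) = i + 1 + n by ring]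
    refine h1.cons (h.adj i (by omega)) ?_
    rw [mem_seg]
    rintro ⟨j, h2, h3, h4⟩
    have := h.inj (by omega) (by omega) h4
    omega

theorem ChainData.closed (h : ChainData G R K v) {W : Finset V}
    (hcl : ∀ u ∈ K 0, ∀ u' ∈ W, G.Adj u u' → u' ∈ K 0) : ∀ i ≤ R, ∀ u ∈ K i, ∀ u' ∈ W,
      G.Adj u u' → u' ∈ K i ∨ ∃ j < i, u' = v j := by
  intro i
  induction i with
  | zero => intro _ u hu u' hu' ha; exact Or.inl (hcl u hu u' hu' ha)
  | succ i ih =>
    intro hi u hu u' hu' ha
    have hu0 := h.sub (i := i) (by omega) hu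
    rw [Finset.mem_erase] at hu0
    rcases ih (by omega) u hu0.2 u' hu' ha with h1 | ⟨j, hj, rfl⟩
    · by_cases he : u' = v i
      · exact Or.inr ⟨i, by omega, he⟩
      · left
        rw [h.cmp i (by omega)] at hu ⊢
        exact comp_adj hu (Finset.mem_erase.2 ⟨he, h1⟩) ha
    · exact Or.inr ⟨j, by omega, rfl⟩

theorem ChainData.closed_comps (h : ChainData G R K v) {W : Finset V}
    (hcl : ∀ u ∈ K 0, ∀ u' ∈ W, G.Adj u u' → u' ∈ K 0) {i : ℕ} (hi : i ≤ R) {D : Finset V}
    (hD : D ∈ comps G ((K i).erase (v i))) {u : V} (hu : u ∈ D) {u' : V} (hu' : u' ∈ W)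
    (ha : G.Adj u u') : u' ∈ D ∨ ∃ j ≤ i, u' = v j := by
  obtain ⟨a, ha', rfl⟩ := mem_comps.1 hD
  have hu0 := comp_subset _ _ hu
  rw [Finset.mem_erase] at hu0
  rcases h.closed hcl i hi u hu0.2 u' hu' ha with h1 | ⟨j, hj, rfl⟩
  · by_cases he : u' = v i
    · exact Or.inr ⟨i, le_rfl, he⟩
    · left
      exact comp_adj hu (Finset.mem_erase.2 ⟨he, h1⟩) ha
  · exact Or.inr ⟨j, by omega, rfl⟩

theorem ChainData.reach (h : ChainData G R K v) {W : Finset V} {r : ℕ} (hr : 3 ≤ r)
    (hW : NoLong G r W) (hKW : K 0 ⊆ W) {i j : ℕ} (hji : j < i) (hi : i ≤ R) {u : V}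
    (hu : u ∈ K i) (ha : G.Adj u (v j)) : i + 2 ≤ j + r := by
  obtain ⟨p, hp, hpK⟩ := h.conn i hi (v i) (h.mem i hi) u hu
  have h1 := h.seg_pth (i - j - 1) j (by omega)
  have h2 : Pth G (v j) u (seg v j (i - j - 1) ++ p) := by
    refine h1.append hp ?_ ?_
    · have := h.adj (j + (i - j - 1)) (by omega)
      rwa [show j + (i - j - 1) + 1 = i by omega] at this
    · intro x hx hxp
      rw [mem_seg] at hx
      obtain ⟨t, ht1, ht2, rfl⟩ := hx
      exact h.notMem (i := t) (j := i) (by omega) hi (hpK _ hxp)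
  by_contra hcon
  have hlen : (seg v j (i - j - 1) ++ p).length = (i - j - 1 + 1) + p.length := by
    rw [List.length_append, seg_length]
  have hp1 := hp.length_pos
  have := hW _ ⟨by rw [hlen]; omega, v j, u, h2, ha⟩ (by
    intro x hx
    rw [List.mem_append] at hx
    rcases hx with hx | hx
    · rw [mem_seg] at hx
      obtain ⟨t, ht1, ht2, rfl⟩ := hx
      exact hKW (h.anti (Nat.zero_le t) (by omega) (h.mem t (by omega)))
    · exact hKW (h.anti (Nat.zero_le i) hi (hpK x hx)))
  omega

/-- leaf lemma -/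
theorem ChainData.leaf (h : ChainData G R K v) {W : Finset V} {r : ℕ} (hr : 3 ≤ r)
    (hW : NoLong G r W) (hKW : K 0 ⊆ W)
    (hcl : ∀ u ∈ K 0, ∀ u' ∈ W, G.Adj u u' → u' ∈ K 0) {i : ℕ} (hi : i ≤ R) {D : Finset V}
    (hD : D ∈ comps G ((K i).erase (v i))) :
    ∃ z ∈ D, ∃ q, Pth G z (v i) q ∧ (∀ x ∈ q, x = v i ∨ x ∈ D) ∧ dg G W z ≤ r - 2 := by
  obtain ⟨w, hwD, hvw⟩ := comp_nbr (h.conn i hi) (h.mem i hi) hD
  have hDK : D ⊆ (K i).erase (v i) := by
    obtain ⟨a, ha', rfl⟩ := mem_comps.1 hD
    exact comp_subset _ _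
  have hp0 : Pth G w (v 0) (w :: (seg v 0 i).reverse) := by
    refine Pth.cons (a := v i) ?_ hvw.symm ?_
    · have := (h.seg_pth i 0 (by omega)).reverse
      simpa using this
    · rw [List.mem_reverse, mem_seg]
      rintro ⟨j, hj1, hj2, rfl⟩
      have := hDK hwD
      rw [Finset.mem_erase] at this
      rcases Nat.lt_or_ge j i with hlt | hge
      · exact h.notMem hlt hi this.2
      · have : j = i := by omega
        subst this
        exact this.1 rfl
  obtain ⟨q, z, hq, hz, hza, hmax⟩ := extend D _ _ _ _ le_rfl hp0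
  have hzD : z ∈ D := by
    rcases hza with rfl | h
    · exact hwD
    · exact h
  have hallW : ∀ x ∈ q ++ w :: (seg v 0 i).reverse, x ∈ W := by
    intro x hx
    rw [List.mem_append, List.mem_cons, List.mem_reverse, mem_seg] at hx
    rcases hx with hx | rfl | ⟨j, hj1, hj2, rfl⟩
    · exact hKW (h.anti (Nat.zero_le i) hi (Finset.mem_of_mem_erase (hDK (hq x hx))))
    · exact hKW (h.anti (Nat.zero_le i) hi (Finset.mem_of_mem_erase (hDK hwD)))
    · exact hKW (h.anti (Nat.zero_le j) (by omega) (h.mem j (by omega)))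
  have hnb : ∀ u ∈ W, G.Adj z u → u ∈ q ++ w :: (seg v 0 i).reverse := by
    intro u hu hzu
    rcases h.closed_comps hcl hi hD hzD hu hzu with h1 | ⟨j, hj, rfl⟩
    · exact hmax u h1 hzu
    · rw [List.mem_append, List.mem_cons, List.mem_reverse, mem_seg]
      exact Or.inr (Or.inr ⟨j, Nat.zero_le _, by omega, rfl⟩)
  have hform : ∃ t, q ++ w :: (seg v 0 i).reverse = z :: t := by
    have := hz.2.2.1
    cases hq' : q ++ w :: (seg v 0 i).reverse with
    | nil => rw [hq'] at this; simp at this
    | cons a t =>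
      rw [hq'] at this
      simp only [List.head?_cons, Option.some.injEq] at this
      exact ⟨t, by rw [this]⟩
  obtain ⟨t, ht⟩ := hform
  refine ⟨z, hzD, (q ++ [w]) ++ [v i], ?_, ?_, ?_⟩
  · have hrev : ∃ s, (seg v 0 i).reverse = v i :: s := by
      refine ⟨((List.range' 0 i).map v).reverse, ?_⟩
      unfold seg
      rw [List.range'_concat]
      simp
    obtain ⟨s, hs⟩ := hrev
    rw [hs] at hz
    have e : q ++ w :: v i :: s = (q ++ [w]) ++ v i :: s := by simp
    rw [e] at hz
    exact hz.pre
  · intro x hx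
    simp only [List.mem_append, List.mem_singleton] at hx
    rcases hx with (hx | rfl) | rfl
    · exact Or.inr (hq x hx)
    · exact Or.inr hwD
    · exact Or.inl rfl
  · rw [ht] at hz hallW hnb
    exact leaf_deg hr hW hz hallW hnb

end chain

end Pool.Agent.Helper14.LongCyc
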