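import Pool.Agent.Helper14.LongCyc.Chain

set_option linter.all false

namespace Pool.Agent.Helper14.LongCyc

variable {V : Type*} {G : SimpleGraph V}

theorem inout [DecidableEq V] : ∀ (a : ℕ) (S1 S2 : Finset V), a ≤ S1.card → a ≤ S2.card →
    ∃ inn out : Fin a → V, (∀ i, inn i ∈ S2 ∧ out i ∈ S1) ∧ (∀ i j, inn i = inn j → i = j) ∧
      (∀ i j, out i = out j → i = j) ∧ (∀ i j, inn i = out j → i = j) := by
  intro a
  induction a with
  | zero =>
    intro S1 S2 _ _
    exact ⟨fun i => i.elim0, fun i => i.elim0, fun i => i.elim0, fun i => i.elim0,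
      fun i => i.elim0, fun i => i.elim0⟩
  | succ a ih =>
    intro S1 S2 h1 h2
    have hex : ∃ x ∈ S1, ∃ y ∈ S2, x = y ∨ Disjoint S1 S2 := by
      by_cases hd : Disjoint S1 S2
      · obtain ⟨x, hx⟩ := Finset.card_pos.1 (by omega : 0 < S1.card)
        obtain ⟨y, hy⟩ := Finset.card_pos.1 (by omega : 0 < S2.card)
        exact ⟨x, hx, y, hy, Or.inr hd⟩
      · rw [Finset.not_disjoint_iff] at hd
        obtain ⟨x, hx, hx'⟩ := hd
        exact ⟨x, hx, x, hx', Or.inl rfl⟩
    obtain ⟨x, hx, y, hy, hxy⟩ := hex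
    obtain ⟨inn, out, hm, hi, ho, hio⟩ := ih (S1.erase x) (S2.erase y)
      (by rw [Finset.card_erase_of_mem hx]; omega) (by rw [Finset.card_erase_of_mem hy]; omega)
    have hm1 : ∀ i, inn i ≠ y ∧ inn i ∈ S2 := fun i => Finset.mem_erase.1 (hm i).1
    have hm2 : ∀ i, out i ≠ x ∧ out i ∈ S1 := fun i => Finset.mem_erase.1 (hm i).2
    have hyo : ∀ j, y ≠ out j := by
      intro j
      rcases hxy with rfl | hd
      · exact (hm2 j).1.symm
      · exact fun h => Finset.disjoint_left.1 hd (hm2 j).2 (h ▸ hy)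
    have hix : ∀ j, inn j ≠ x := by
      intro j
      rcases hxy with rfl | hd
      · exact (hm1 j).1
      · exact fun h => Finset.disjoint_left.1 hd hx (h ▸ (hm1 j).2)
    refine ⟨Fin.cons y inn, Fin.cons x out, ?_, ?_, ?_, ?_⟩
    · intro i
      refine Fin.cases ?_ (fun i => ?_) i
      · simpa using ⟨hy, hx⟩
      · simpa using ⟨(hm1 i).2, (hm2 i).2⟩
    · intro i j
      refine Fin.cases ?_ (fun i => ?_) i <;> refine Fin.cases ?_ (fun j => ?_) j
      · simp
      · intro h; simp at h; exact absurd h.symm (hm1 j).1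
      · intro h; simp at h; exact absurd h (hm1 i).1
      · intro h; simp at h; rw [hi i j h]
    · intro i j
      refine Fin.cases ?_ (fun i => ?_) i <;> refine Fin.cases ?_ (fun j => ?_) j
      · simp
      · intro h; simp at h; exact absurd h.symm (hm2 j).1
      · intro h; simp at h; exact absurd h (hm2 i).1
      · intro h; simp at h; rw [ho i j h]
    · intro i j
      refine Fin.cases ?_ (fun i => ?_) i <;> refine Fin.cases ?_ (fun j => ?_) j
      · simp
      · intro h; simp at h; exact absurd h (hyo j)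
      · intro h; simp at h; exact absurd h (hix i)
      · intro h; simp at h; rw [hio i j h]

/-- `Packs G r k U`: there are `k` pairwise disjoint cycles of length at least `r` inside `U` -/
def Packs (G : SimpleGraph V) (r k : ℕ) (U : Finset V) : Prop :=
  ∃ C : ℕ → List V, (∀ i < k, Cyc G (C i) ∧ r ≤ (C i).length ∧ ∀ x ∈ C i, x ∈ U) ∧
    ∀ i < k, ∀ j < k, i ≠ j → ∀ x ∈ C i, x ∉ C j

theorem Packs.mono {r k : ℕ} {U U' : Finset V} (h : Packs G r k U) (hs : U ⊆ U') :
    Packs G r k U' := by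
  obtain ⟨C, h1, h2⟩ := h
  exact ⟨C, fun i hi => ⟨(h1 i hi).1, (h1 i hi).2.1, fun x hx => hs ((h1 i hi).2.2 x hx)⟩, h2⟩

theorem Packs.zero {r : ℕ} {U : Finset V} : Packs G r 0 U :=
  ⟨fun _ => [], fun i hi => absurd hi (Nat.not_lt_zero _), fun i hi => absurd hi (Nat.not_lt_zero _)⟩

theorem Packs.succ [DecidableEq V] {r k : ℕ} {U : Finset V} {l : List V} (hl : Cyc G l)
    (hlr : r ≤ l.length) (hlU : ∀ x ∈ l, x ∈ U) (h : Packs G r k (U \ l.toFinset)) :
    Packs G r (k + 1) U := by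
  obtain ⟨C, h1, h2⟩ := h
  refine ⟨fun i => Nat.casesOn i l C, ?_, ?_⟩
  · intro i hi
    cases i with
    | zero => exact ⟨hl, hlr, hlU⟩
    | succ i =>
      have := h1 i (by omega)
      exact ⟨this.1, this.2.1, fun x hx => (Finset.mem_sdiff.1 (this.2.2 x hx)).1⟩
  · intro i hi j hj hij
    cases i with
    | zero =>
      cases j with
      | zero => exact absurd rfl hij
      | succ j =>
        intro x hx hx'
        have := (Finset.mem_sdiff.1 ((h1 j (by omega)).2.2 x hx')).2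
        exact this (List.mem_toFinset.2 hx)
    | succ i =>
      cases j with
      | zero =>
        intro x hx hx'
        have := (Finset.mem_sdiff.1 ((h1 i (by omega)).2.2 x hx)).2
        exact this (List.mem_toFinset.2 hx')
      | succ j => exact h2 i (by omega) j (by omega) (by omega)

/-- concatenation of consecutive segments -/
theorem glue_cat {s e : ℕ → V} {S : ℕ → List V} {m : ℕ} {a : ℕ}
    (hp : ∀ i < a, Pth G (s i) (e i) (S i) ∧ m ≤ (S i).length)
    (hadj : ∀ i < a, ∀ j < a, G.Adj (e i) (s j))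
    (hd : ∀ i < a, ∀ j < a, i ≠ j → ∀ x ∈ S i, x ∉ S j) (b : ℕ) :
    ∀ n, b + n < a → ∃ L, Pth G (s b) (e (b + n)) L ∧ (n + 1) * m ≤ L.length ∧
      ∀ x ∈ L, ∃ j, b ≤ j ∧ j ≤ b + n ∧ x ∈ S j := by
  intro n
  induction n with
  | zero =>
    intro hb
    exact ⟨S b, (hp b hb).1, by simpa using (hp b hb).2, fun x hx => ⟨b, le_rfl, le_rfl, hx⟩⟩
  | succ n ih =>
    intro hb
    obtain ⟨L, h1, h2, h3⟩ := ih (by omega)
    refine ⟨L ++ S (b + (n + 1)), ?_, ?_, ?_⟩
    · refine h1.append (hp _ hb).1 (hadj _ (by omega) _ hb) ?_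
      intro x hx hx'
      obtain ⟨j, hj1, hj2, hj3⟩ := h3 x hx
      exact hd j (by omega) _ hb (by omega) x hj3 hx'
    · rw [List.length_append]
      have := (hp _ hb).2
      rw [Nat.succ_mul (n + 1) m]
      omega
    · intro x hx
      rw [List.mem_append] at hx
      rcases hx with hx | hx
      · obtain ⟨j, hj1, hj2, hj3⟩ := h3 x hx
        exact ⟨j, hj1, by omega, hj3⟩
      · exact ⟨_, by omega, le_rfl, hx⟩

theorem glue {s e : ℕ → V} {S : ℕ → List V} {m k l r : ℕ} (hr : 3 ≤ r) (hl : 1 ≤ l)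
    (hlm : r ≤ l * m) (U : Finset V)
    (hp : ∀ i < k * l, Pth G (s i) (e i) (S i) ∧ m ≤ (S i).length ∧ ∀ x ∈ S i, x ∈ U)
    (hadj : ∀ i < k * l, ∀ j < k * l, G.Adj (e i) (s j))
    (hd : ∀ i < k * l, ∀ j < k * l, i ≠ j → ∀ x ∈ S i, x ∉ S j) : Packs G r k U := by
  have key : ∀ g, g < k → ∃ L, Cyc G L ∧ r ≤ L.length ∧
      ∀ x ∈ L, ∃ j, g * l ≤ j ∧ j < (g + 1) * l ∧ x ∈ S j := by
    intro g hg
    have hgl : (g + 1) * l ≤ k * l := Nat.mul_le_mul_right _ hg
    have e1 : (g + 1) * l = g * l + l := Nat.succ_mul _ _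
    obtain ⟨L, h1, h2, h3⟩ := glue_cat (G := G) (s := s) (e := e) (S := S) (m := m) (a := k * l)
      (fun i hi => ⟨(hp i hi).1, (hp i hi).2.1⟩) hadj hd (g * l) (l - 1) (by omega)
    have hlen : r ≤ L.length := by
      have : (l - 1 + 1) * m = l * m := by rw [Nat.sub_add_cancel hl]
      omega
    refine ⟨L, ⟨by omega, _, _, h1, hadj _ (by omega) _ (by omega)⟩, hlen, ?_⟩
    intro x hx
    obtain ⟨j, hj1, hj2, hj3⟩ := h3 x hx
    exact ⟨j, hj1, by omega, hj3⟩
  choose! C hC using key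
  refine ⟨C, ?_, ?_⟩
  · intro i hi
    refine ⟨(hC i hi).1, (hC i hi).2.1, fun x hx => ?_⟩
    obtain ⟨j, hj1, hj2, hj3⟩ := (hC i hi).2.2 x hx
    have hgl : (i + 1) * l ≤ k * l := Nat.mul_le_mul_right _ hi
    exact (hp j (by omega)).2.2 x hj3
  · intro i hi j hj hij x hx hx'
    obtain ⟨a, ha1, ha2, ha3⟩ := (hC i hi).2.2 x hx
    obtain ⟨b, hb1, hb2, hb3⟩ := (hC j hj).2.2 x hx'
    have hgl : (i + 1) * l ≤ k * l := Nat.mul_le_mul_right _ hi
    have hgl' : (j + 1) * l ≤ k * l := Nat.mul_le_mul_right _ hj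
    by_cases hab : a = b
    · subst hab
      rcases Nat.lt_or_gt_of_ne hij with h | h
      · have : (i + 1) * l ≤ j * l := Nat.mul_le_mul_right _ h
        omega
      · have : (j + 1) * l ≤ i * l := Nat.mul_le_mul_right _ h
        omega
    · exact hd a (by omega) b (by omega) hab x ha3 hb3

/-- the assembly lemma -/
theorem assemble [DecidableEq V] {k l m r : ℕ} (hr : 3 ≤ r) (hl : 1 ≤ l) (hlm : r ≤ l * (m + 1))
    {X U S1 S2 : Finset V} (hXU : X ⊆ U) (hS1 : S1 ⊆ X) (hS2 : S2 ⊆ X) (h1 : k * l ≤ S1.card)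
    (h2 : k * l ≤ S2.card) {Q : ℕ → List V} {e f : ℕ → V}
    (hQ : ∀ i < 2 * (k * l), Pth G (e i) (f i) (Q i) ∧ m ≤ (Q i).length ∧
      (∀ x ∈ Q i, x ∈ U ∧ x ∉ X) ∧ (∀ x ∈ S1, G.Adj x (e i)) ∧ (∀ x ∈ S2, G.Adj x (f i)))
    (hd : ∀ i < 2 * (k * l), ∀ j < 2 * (k * l), i ≠ j → ∀ x ∈ Q i, x ∉ Q j) :
    Packs G r k U := by
  obtain ⟨inn, out, hm, hi, ho, hio⟩ := inout (k * l) S1 S2 h1 h2
  rcases Nat.eq_zero_or_pos (k * l) with h0 | hpos
  · have : k = 0 := by
      rcases Nat.mul_eq_zero.1 h0 with h | h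
      · exact h
      · omega
    subst this
    exact Packs.zero
  obtain ⟨x0, hx0⟩ := Finset.card_pos.1 (by omega : 0 < S1.card)
  -- extend to natural numbers
  set I : ℕ → V := fun i => if h : i < k * l then inn ⟨i, h⟩ else x0 with hI
  set O : ℕ → V := fun i => if h : i < k * l then out ⟨i, h⟩ else x0 with hO
  have hIm : ∀ i < k * l, I i ∈ S2 := fun i h => by simp only [hI, h, dif_pos]; exact (hm _).1
  have hOm : ∀ i < k * l, O i ∈ S1 := fun i h => by simp only [hO, h, dif_pos]; exact (hm _).2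
  have hII : ∀ i < k * l, ∀ j < k * l, I i = I j → i = j := by
    intro i h j h' he
    simp only [hI, h, h', dif_pos] at he
    simpa using hi _ _ he
  have hOO : ∀ i < k * l, ∀ j < k * l, O i = O j → i = j := by
    intro i h j h' he
    simp only [hO, h, h', dif_pos] at he
    simpa using ho _ _ he
  have hIO : ∀ i < k * l, ∀ j < k * l, I i = O j → i = j := by
    intro i h j h' he
    simp only [hI, hO, h, h', dif_pos] at he
    simpa using hio _ _ he
  -- the segments
  have hseg : ∀ i, i < k * l → ∃ L, Pth G (I i) (f (2 * i + 1)) L ∧ m + 1 ≤ L.length ∧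
      ∀ x ∈ L, x = I i ∨ x = O i ∨ x ∈ Q (2 * i) ∨ x ∈ Q (2 * i + 1) := by
    intro i hil
    have q0 := hQ (2 * i) (by omega)
    have q1 := hQ (2 * i + 1) (by omega)
    have hIX : I i ∈ X := hS2 (hIm i hil)
    have hOX : O i ∈ X := hS1 (hOm i hil)
    by_cases he : I i = O i
    · refine ⟨I i :: Q (2 * i + 1), ?_, ?_, ?_⟩
      · refine q1.1.cons ?_ (fun hx => (q1.2.2.1 _ hx).2 hIX)
        rw [he]; exact q1.2.2.2.1 _ (hOm i hil)
      · rw [List.length_cons]; omega
      · intro x hx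
        rw [List.mem_cons] at hx
        tauto
    · have p1 : Pth G (I i) (e (2 * i)) (I i :: (Q (2 * i)).reverse) := by
        refine q0.1.reverse.cons (q0.2.2.2.2 _ (hIm i hil)) (fun hx => ?_)
        rw [List.mem_reverse] at hx
        exact (q0.2.2.1 _ hx).2 hIX
      have p2 := p1.concat (q0.2.2.2.1 _ (hOm i hil)).symm (by
        rw [List.mem_cons, List.mem_reverse]
        rintro (h | h)
        · exact he h.symm
        · exact (q0.2.2.1 _ h).2 hOX)
      have p3 := p2.append q1.1 (q1.2.2.2.1 _ (hOm i hil)) (by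
        intro x hx hx'
        simp only [List.mem_append, List.mem_cons, List.mem_reverse, List.not_mem_nil,
          or_false] at hx
        rcases hx with (rfl | hx) | rfl
        · exact (q1.2.2.1 _ hx').2 hIX
        · exact hd (2 * i) (by omega) (2 * i + 1) (by omega) (by omega) x hx hx'
        · exact (q1.2.2.1 _ hx').2 hOX)
      refine ⟨_, p3, ?_, ?_⟩
      · simp only [List.length_append, List.length_cons]; omega
      · intro x hx
        simp only [List.mem_append, List.mem_cons, List.mem_reverse, List.not_mem_nil,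
          or_false] at hx
        tauto
  choose! S hS using hseg
  refine glue (s := I) (e := fun i => f (2 * i + 1)) (S := S) (m := m + 1) hr hl hlm U ?_ ?_ ?_
  · intro i hil
    refine ⟨(hS i hil).1, (hS i hil).2.1, fun x hx => ?_⟩
    rcases (hS i hil).2.2 x hx with rfl | rfl | hx | hx
    · exact hXU (hS2 (hIm i hil))
    · exact hXU (hS1 (hOm i hil))
    · exact ((hQ _ (by omega)).2.2.1 x hx).1
    · exact ((hQ _ (by omega)).2.2.1 x hx).1
  · intro i hil j hjl
    exact ((hQ (2 * i + 1) (by omega)).2.2.2.2 _ (hIm j hjl)).symm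
  · intro i hil j hjl hij x hx hx'
    have hXQ : ∀ t < 2 * (k * l), ∀ y ∈ X, y ∉ Q t := fun t ht y hy hy' =>
      ((hQ t ht).2.2.1 y hy').2 hy
    rcases (hS i hil).2.2 x hx with rfl | rfl | h | h <;>
      rcases (hS j hjl).2.2 _ hx' with h' | h' | h' | h'
    · exact hij (hII i hil j hjl h')
    · exact hij (hIO i hil j hjl h')
    · exact hXQ _ (by omega) _ (hS2 (hIm i hil)) h'
    · exact hXQ _ (by omega) _ (hS2 (hIm i hil)) h'
    · exact hij (hIO j hjl i hil h'.symm).symm
    · exact hij (hOO i hil j hjl h')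
    · exact hXQ _ (by omega) _ (hS1 (hOm i hil)) h'
    · exact hXQ _ (by omega) _ (hS1 (hOm i hil)) h'
    · exact hXQ _ (by omega) _ (hS2 (hIm j hjl)) (h' ▸ h)
    · exact hXQ _ (by omega) _ (hS1 (hOm j hjl)) (h' ▸ h)
    · exact hd _ (by omega) _ (by omega) (by omega) _ h h'
    · exact hd _ (by omega) _ (by omega) (by omega) _ h h'
    · exact hXQ _ (by omega) _ (hS2 (hIm j hjl)) (h' ▸ h)
    · exact hXQ _ (by omega) _ (hS1 (hOm j hjl)) (h' ▸ h)
    · exact hd _ (by omega) _ (by omega) (by omega) _ h h'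
    · exact hd _ (by omega) _ (by omega) (by omega) _ h h'

end Pool.Agent.Helper14.LongCyc
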