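import Pool.Agent.Helper14.LongCyc.Basic

set_option linter.all false

namespace Pool.Agent.Helper14.LongCyc

variable {V : Type*} {G : SimpleGraph V}

open Classical in
/-- number of neighbours of `v` inside `W` -/
noncomputable def dg (G : SimpleGraph V) (W : Finset V) (v : V) : ℕ :=
  (W.filter fun u => G.Adj v u).card

/-- no cycle of length at least `r` inside `W` -/
def NoLong (G : SimpleGraph V) (r : ℕ) (W : Finset V) : Prop :=
  ∀ l, Cyc G l → (∀ x ∈ l, x ∈ W) → l.length < r

theorem NoLong.mono {r : ℕ} {W W' : Finset V} (h : NoLong G r W) (hs : W' ⊆ W) : NoLong G r W' :=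
  fun l hl hm => h l hl fun x hx => hs (hm x hx)

theorem dg_mono {W W' : Finset V} (hs : W ⊆ W') (v : V) : dg G W v ≤ dg G W' v := by
  classical
  unfold dg
  exact Finset.card_le_card (Finset.filter_subset_filter _ hs)

theorem dg_union_le [DecidableEq V] (W W' : Finset V) (v : V) :
    dg G (W ∪ W') v ≤ dg G W v + dg G W' v := by
  classical
  unfold dg
  rw [Finset.filter_union]
  exact Finset.card_union_le _ _

/-- if all neighbours in `W` of the head `z` of a path in a region without long cycles
lie on the path, then `z` has at most `r - 2` neighbours. -/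
theorem leaf_deg {r : ℕ} (hr : 3 ≤ r) {W : Finset V} (hW : NoLong G r W) {z e : V} {t : List V}
    (hp : Pth G z e (z :: t)) (hin : ∀ x ∈ z :: t, x ∈ W)
    (hn : ∀ u ∈ W, G.Adj z u → u ∈ z :: t) : dg G W z ≤ r - 2 := by
  classical
  have key : (W.filter fun u => G.Adj z u) ⊆ (t.take (r - 2)).toFinset := by
    intro u hu
    rw [Finset.mem_filter] at hu
    obtain ⟨huW, hzu⟩ := hu
    have hut : u ∈ t := by
      have := hn u huW hzu
      rw [List.mem_cons] at this
      rcases this with h | h
      · exact absurd h.symm hzu.ne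
      · exact h
    rw [List.mem_toFinset]
    obtain ⟨i, hi, hiu⟩ := List.getElem_of_mem hut
    by_cases hlt : i < r - 2
    · rw [List.mem_iff_getElem]
      refine ⟨i, by simp [hi, hlt], ?_⟩
      rw [List.getElem_take]; exact hiu
    · exfalso
      push Not at hlt
      -- the prefix of length i + 2
      let p := (z :: t).take (i + 2)
      have hplen : p.length = i + 2 := by
        simp [p, List.length_take]; omega
      have hcyc : Cyc G p := by
        refine ⟨by rw [hplen]; omega, z, u, ⟨?_, ?_, ?_, ?_⟩, hzu.symm⟩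
        · exact hp.1.sublist (List.take_sublist _ _)
        · exact hp.2.1.take _
        · simp [p]
        · rw [List.getLast?_eq_getElem?, hplen]
          simp only [p]
          rw [List.getElem?_take]
          simp [hi, hiu]
      have := hW p hcyc (fun x hx => hin x (List.mem_of_mem_take hx))
      omega
  unfold dg
  calc _ ≤ _ := Finset.card_le_card key
    _ ≤ _ := List.toFinset_card_le _
    _ ≤ r - 2 := by rw [List.length_take]; omega

/-- maximal extension of a path at its head inside a finite set `K` -/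
theorem extend [DecidableEq V] (K : Finset V) : ∀ (n : ℕ) (p : List V) (a b : V),
    (K \ p.toFinset).card ≤ n → Pth G a b p →
    ∃ q z, (∀ x ∈ q, x ∈ K) ∧ Pth G z b (q ++ p) ∧ (z = a ∨ z ∈ K) ∧
      ∀ u ∈ K, G.Adj z u → u ∈ q ++ p := by
  intro n
  induction n with
  | zero =>
    intro p a b hn hp
    refine ⟨[], a, by simp, by simpa using hp, Or.inl rfl, ?_⟩
    intro u hu _
    have : K \ p.toFinset = ∅ := Finset.card_eq_zero.1 (by omega)
    rw [Finset.sdiff_eq_empty_iff_subset] at this
    simpa using this hu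
  | succ n ih =>
    intro p a b hn hp
    by_cases h : ∀ u ∈ K, G.Adj a u → u ∈ p
    · exact ⟨[], a, by simp, by simpa using hp, Or.inl rfl, by simpa using h⟩
    · push Not at h
      obtain ⟨u, huK, hau, hup⟩ := h
      have hp' : Pth G u b (u :: p) := hp.cons hau.symm hup
      have hcard : (K \ (u :: p).toFinset).card ≤ n := by
        have hss : K \ (u :: p).toFinset ⊂ K \ p.toFinset := by
          rw [Finset.ssubset_iff_of_subset]
          · refine ⟨u, by simp [huK, hup], by simp⟩
          · intro x hx
            simp only [Finset.mem_sdiff, List.mem_toFinset, List.mem_cons, not_or] at hx ⊢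
            exact ⟨hx.1, hx.2.2⟩
        have := Finset.card_lt_card hss
        omega
      obtain ⟨q, z, hq, hz, hza, hmax⟩ := ih (u :: p) u b hcard hp'
      refine ⟨q ++ [u], z, ?_, ?_, ?_, ?_⟩
      · intro x hx
        rw [List.mem_append, List.mem_singleton] at hx
        rcases hx with hx | rfl
        · exact hq x hx
        · exact huK
      · simpa using hz
      · rcases hza with rfl | h
        · exact Or.inr huK
        · exact Or.inr h
      · intro w hw hzw
        have := hmax w hw hzw
        simpa using this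

open Classical in
/-- the component of `a` inside `S` (for `a ∈ S`) -/
noncomputable def comp (G : SimpleGraph V) (S : Finset V) (a : V) : Finset V :=
  S.filter fun b => ∃ p, Pth G a b p ∧ ∀ x ∈ p, x ∈ S

theorem mem_comp {S : Finset V} {a b : V} :
    b ∈ comp G S a ↔ b ∈ S ∧ ∃ p, Pth G a b p ∧ ∀ x ∈ p, x ∈ S := by
  classical
  unfold comp
  rw [Finset.mem_filter]

theorem mem_comp' {S : Finset V} {a b : V} :
    b ∈ comp G S a ↔ ∃ p, Pth G a b p ∧ ∀ x ∈ p, x ∈ S := by
  rw [mem_comp]
  exact ⟨fun h => h.2, fun h => ⟨h.choose_spec.2 _ h.choose_spec.1.last_mem, h⟩⟩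

theorem comp_subset (S : Finset V) (a : V) : comp G S a ⊆ S := fun b hb => (mem_comp.1 hb).1

theorem self_mem_comp {S : Finset V} {a : V} (ha : a ∈ S) : a ∈ comp G S a :=
  mem_comp'.2 ⟨[a], Pth.singleton a, by simpa using ha⟩

theorem comp_adj {S : Finset V} {a b c : V} (hb : b ∈ comp G S a) (hc : c ∈ S)
    (hbc : G.Adj b c) : c ∈ comp G S a := by
  obtain ⟨p, hp, hpS⟩ := mem_comp'.1 hb
  by_cases hcp : c ∈ p
  · obtain ⟨l', h1, h2⟩ := hp.take_to hcp
    exact mem_comp'.2 ⟨l', h1, fun x hx => hpS x (h2.subset hx)⟩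
  · exact mem_comp'.2 ⟨p ++ [c], hp.concat hbc hcp, by
      intro x hx
      rw [List.mem_append, List.mem_singleton] at hx
      rcases hx with hx | rfl
      · exact hpS x hx
      · exact hc⟩

theorem comp_path {S : Finset V} {a : V} : ∀ (p : List V) (b c : V), b ∈ comp G S a →
    Pth G b c p → (∀ x ∈ p, x ∈ S) → c ∈ comp G S a := by
  intro p
  induction p with
  | nil => intro b c _ hp; exact absurd rfl hp.ne_nil
  | cons x t ih =>
    intro b c hb hp hS
    have hxb : x = b := by simpa using hp.2.2.1
    subst hxb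
    cases t with
    | nil =>
      have : x = c := by simpa using hp.2.2.2
      exact this ▸ hb
    | cons y t =>
      have hxy : G.Adj x y := by
        have := hp.2.1
        rw [List.isChain_cons_cons] at this
        exact this.1
      have hy : y ∈ comp G S a := comp_adj hb (hS y (by simp)) hxy
      refine ih y c hy ⟨?_, ?_, by simp, ?_⟩ (fun z hz => hS z (List.mem_cons_of_mem _ hz))
      · exact (List.nodup_cons.1 hp.1).2
      · have := hp.2.1
        rw [List.isChain_cons_cons] at this
        exact this.2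
      · have := hp.2.2.2
        rw [List.getLast?_cons_cons] at this
        exact this

theorem comp_symm {S : Finset V} {a b : V} (hb : b ∈ comp G S a) : a ∈ comp G S b := by
  obtain ⟨p, hp, hpS⟩ := mem_comp'.1 hb
  exact mem_comp'.2 ⟨p.reverse, hp.reverse, by simpa using hpS⟩

theorem comp_trans {S : Finset V} {a b c : V} (hb : b ∈ comp G S a) (hc : c ∈ comp G S b) :
    c ∈ comp G S a := by
  obtain ⟨p, hp, hpS⟩ := mem_comp'.1 hc
  exact comp_path p b c hb hp hpS

theorem comp_eq {S : Finset V} {a b : V} (hb : b ∈ comp G S a) : comp G S b = comp G S a := by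
  ext c
  exact ⟨fun h => comp_trans hb h, fun h => comp_trans (comp_symm hb) h⟩

/-- connected set -/
def Conn (G : SimpleGraph V) (C : Finset V) : Prop :=
  ∀ a ∈ C, ∀ b ∈ C, ∃ p, Pth G a b p ∧ ∀ x ∈ p, x ∈ C

theorem comp_conn {S : Finset V} {a : V} : Conn G (comp G S a) := by
  have key : ∀ b ∈ comp G S a, ∃ p, Pth G a b p ∧ ∀ x ∈ p, x ∈ comp G S a := by
    intro b hb
    obtain ⟨p, hp, hpS⟩ := mem_comp'.1 hb
    refine ⟨p, hp, fun x hx => ?_⟩
    obtain ⟨l', h1, h2⟩ := hp.take_to hx
    exact mem_comp'.2 ⟨l', h1, fun y hy => hpS y (h2.subset hy)⟩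
  intro b hb c hc
  have hbc : c ∈ comp G S b := by rw [comp_eq hb]; exact hc
  obtain ⟨p, hp, hpS⟩ := mem_comp'.1 hbc
  refine ⟨p, hp, fun x hx => ?_⟩
  obtain ⟨l', h1, h2⟩ := hp.take_to hx
  rw [← comp_eq hb]
  exact mem_comp'.2 ⟨l', h1, fun y hy => hpS y (h2.subset hy)⟩

open Classical in
/-- the set of components of `S` -/
noncomputable def comps (G : SimpleGraph V) (S : Finset V) : Finset (Finset V) :=
  S.image (comp G S)

theorem mem_comps {S D : Finset V} : D ∈ comps G S ↔ ∃ a ∈ S, comp G S a = D := by
  classical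
  unfold comps
  rw [Finset.mem_image]

theorem comps_disj {S D D' : Finset V} (h : D ∈ comps G S) (h' : D' ∈ comps G S) (hne : D ≠ D') :
    Disjoint D D' := by
  obtain ⟨a, ha, rfl⟩ := mem_comps.1 h
  obtain ⟨b, hb, rfl⟩ := mem_comps.1 h'
  rw [Finset.disjoint_left]
  intro x hx hx'
  apply hne
  rw [← comp_eq hx, ← comp_eq hx']

theorem comps_card {S : Finset V} {M N : ℕ} (h : ∀ D ∈ comps G S, D.card < N)
    (hM : (comps G S).card < M) : S.card ≤ M * N := by
  classical
  have hsub : S ⊆ (comps G S).biUnion id := by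
    intro x hx
    rw [Finset.mem_biUnion]
    exact ⟨comp G S x, mem_comps.2 ⟨x, hx, rfl⟩, self_mem_comp hx⟩
  calc S.card ≤ _ := Finset.card_le_card hsub
    _ ≤ ∑ D ∈ comps G S, (id D).card := Finset.card_biUnion_le
    _ ≤ ∑ D ∈ comps G S, N := Finset.sum_le_sum fun D hD => (h D hD).le
    _ = (comps G S).card * N := by rw [Finset.sum_const, smul_eq_mul]
    _ ≤ M * N := Nat.mul_le_mul_right _ hM.le

/-- a component of `C \ {v}` of a connected set contains a neighbour of `v` -/
theorem comp_nbr [DecidableEq V] {C : Finset V} (hC : Conn G C) {v : V} (hv : v ∈ C)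
    {D : Finset V} (hD : D ∈ comps G (C.erase v)) : ∃ w ∈ D, G.Adj v w := by
  obtain ⟨u, hu, rfl⟩ := mem_comps.1 hD
  rw [Finset.mem_erase] at hu
  obtain ⟨p, hp, hpC⟩ := hC v hv u hu.2
  -- p = v :: t
  cases p with
  | nil => exact absurd rfl hp.ne_nil
  | cons x t =>
    have hxv : x = v := by simpa using hp.2.2.1
    subst hxv
    cases t with
    | nil =>
      have : x = u := by simpa using hp.2.2.2
      exact absurd this.symm hu.1
    | cons y t =>
      have hch := hp.2.1
      rw [List.isChain_cons_cons] at hch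
      have hnd := List.nodup_cons.1 hp.1
      refine ⟨y, ?_, hch.1⟩
      have hp' : Pth G y u (y :: t) := by
        refine ⟨hnd.2, hch.2, by simp, ?_⟩
        have := hp.2.2.2
        rw [List.getLast?_cons_cons] at this
        exact this
      refine comp_symm (mem_comp'.2 ⟨y :: t, hp', ?_⟩)
      intro z hz
      rw [Finset.mem_erase]
      refine ⟨?_, hpC z (List.mem_cons_of_mem _ hz)⟩
      rintro rfl
      exact hnd.1 hz

end Pool.Agent.Helper14.LongCyc
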